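import Pool.Agent.Helper1.SEM.Phases

set_option autoImplicit false
set_option linter.unusedSectionVars false

/-!
# Forests with two components as rooted forests (MP_6afe48_co)
-/

namespace Pool.Agent.Helper1.SEM

open Finset Function SimpleGraph

variable {V : Type}

/-- A forest with two components, `c` and `v` in different components, as a rooted forest. -/
theorem exists_parent (G : SimpleGraph V) (hG : G.IsAcyclic) {c v : V} (hcv : ¬ G.Reachable c v)
    (hall : ∀ x, G.Reachable c x ∨ G.Reachable v x) :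
    ∃ (π : V → V) (d : V → ℕ), (∀ x, x ≠ c → x ≠ v → d (π x) < d x ∧ G.Adj x (π x)) ∧
      ∀ a b, G.Adj a b → (a ≠ c ∧ a ≠ v ∧ b = π a) ∨ (b ≠ c ∧ b ≠ v ∧ a = π b) := by
  classical
  let r : V → V := fun x => if G.Reachable c x then c else v
  have hr : ∀ x, G.Reachable (r x) x := by
    intro x
    by_cases h : G.Reachable c x
    · simp only [r, h, if_true]
    · simp only [r, h, if_false]
      exact (hall x).resolve_left h
  have hradj : ∀ a b, G.Adj a b → r a = r b := by
    intro a b hab
    have : G.Reachable c a ↔ G.Reachable c b :=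
      ⟨fun h => h.trans hab.reachable, fun h => h.trans hab.symm.reachable⟩
    simp only [r, this]
  have hrc : r c = c := by
    simp only [r, Reachable.refl, if_true]
  have hrv : r v = v := by
    simp only [r, hcv, if_false]
  let d : V → ℕ := fun x => G.dist (r x) x
  have hdc : d c = 0 := by simp only [d, hrc, dist_self]
  have hdv : d v = 0 := by simp only [d, hrv, dist_self]
  -- the paths
  have hp : ∀ x, ∃ p : G.Walk (r x) x, p.IsPath ∧ p.length = G.dist (r x) x := fun x =>
    (hr x).exists_path_of_dist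
  choose P hP hPl using hp
  let π : V → V := fun x => (P x).penultimate
  have hnn : ∀ x, x ≠ c → x ≠ v → ¬ (P x).Nil := by
    intro x hxc hxv hn
    have h1 := hn.eq
    by_cases h : G.Reachable c x
    · simp only [r, h, if_true] at h1; exact hxc h1.symm
    · simp only [r, h, if_false] at h1; exact hxv h1.symm
  have h1 : ∀ x, x ≠ c → x ≠ v → d (π x) < d x ∧ G.Adj x (π x) := by
    intro x hxc hxv
    have hadj : G.Adj (π x) x := Walk.adj_penultimate (hnn x hxc hxv)
    refine ⟨?_, hadj.symm⟩
    have h2 : r (π x) = r x := hradj _ _ hadj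
    have h3 : G.dist (r x) (π x) ≤ (P x).dropLast.length := dist_le _
    have h4 : (P x).dropLast.length + 1 = (P x).length :=
      Walk.length_dropLast_add_one (hnn x hxc hxv)
    have h5 := hPl x
    change G.dist (r (π x)) (π x) < G.dist (r x) x
    rw [h2]
    omega
  have key : ∀ a b, G.Adj a b → d b < d a → a ≠ c ∧ a ≠ v ∧ b = π a := by
    intro a b hab hlt
    have hac : a ≠ c := fun e => by rw [e, hdc] at hlt; omega
    have hav : a ≠ v := fun e => by rw [e, hdv] at hlt; omega
    refine ⟨hac, hav, ?_⟩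
    have hrab := hradj a b hab
    obtain ⟨q, hq, hql⟩ := (show G.Reachable (r a) b from hrab ▸ hr b).exists_path_of_dist
    have hnot : a ∉ q.support := by
      intro hmem
      have h2 : G.dist (r a) a ≤ (q.takeUntil a hmem).length := dist_le _
      have h3 := q.length_takeUntil_le hmem
      change G.dist (r b) b < G.dist (r a) a at hlt
      rw [← hrab] at hlt
      omega
    have hmem := hG.mem_support_of_ne_mem_support_of_adj_of_isPath (hP a) hq hab hnot
    exact hG.eq_penultimate_of_adj_end (hP a) hab hmem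
  refine ⟨π, d, h1, fun a b hab => ?_⟩
  have hreach : G.Reachable (r a) a := hr a
  have h2 := hG.dist_eq_dist_add_one_of_adj_of_reachable (r a) hab hreach
  have h3 : d b = G.dist (r a) b := by simp only [d, hradj a b hab]
  have h4 : d a = G.dist (r a) a := rfl
  rcases h2 with h2 | h2
  · left; exact key a b hab (by omega)
  · right; exact key b a hab.symm (by omega)

/-- The label of an edge. -/
def esum (y : V → ℕ) (e : Sym2 V) : ℕ := Sym2.lift ⟨fun a b => y a + y b, fun _ _ => add_comm _ _⟩ e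

theorem esum_mk (y : V → ℕ) (a b : V) : esum y s(a, b) = y a + y b := rfl

/-- Super edge-magic labellings from labellings of rooted forests. -/
theorem sem_of_labelling [Fintype V] (G : SimpleGraph V) {c v : V} (hcv : c ≠ v) {π : V → V}
    {d : V → ℕ} (h1 : ∀ x, x ≠ c → x ≠ v → d (π x) < d x ∧ G.Adj x (π x))
    (h2 : ∀ a b, G.Adj a b → (a ≠ c ∧ a ≠ v ∧ b = π a) ∨ (b ≠ c ∧ b ≠ v ∧ a = π b))
    {y : V → ℕ} (hy : Injective y) (hle : ∀ x, y x ≤ Fintype.card V)
    (hs : ∀ x, x ≠ c → x ≠ v → 3 ≤ y x + y (π x) ∧ y x + y (π x) ≤ Fintype.card V)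
    (hi : ∀ x x', x ≠ c → x ≠ v → x' ≠ c → x' ≠ v → y x + y (π x) = y x' + y (π x') → x = x') :
    ∃ f : V → ℕ, Function.Injective f ∧
      (∀ v, 1 ≤ f v ∧ f v ≤ Fintype.card V + 1) ∧
      ∃ g : G.edgeSet → ℕ, Function.Injective g ∧
        (∀ e, Fintype.card V + 1 + 1 ≤ g e ∧
              g e ≤ Fintype.card V + 1 + Nat.card G.edgeSet) ∧
        ∃ k : ℕ, ∀ (e : G.edgeSet) (u v : V), e.val = s(u, v) → f u + f v + g e = k := by
  classical
  set n := Fintype.card V with hn
  have hedge : ∀ e ∈ G.edgeSet, ∃ x, x ≠ c ∧ x ≠ v ∧ e = s(x, π x) := by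
    intro e
    induction e using Sym2.ind with
    | _ a b =>
      intro hab
      rcases h2 a b hab with ⟨h3, h4, h5⟩ | ⟨h3, h4, h5⟩
      · exact ⟨a, h3, h4, by rw [h5]⟩
      · exact ⟨b, h3, h4, by rw [h5]; exact Sym2.eq_swap⟩
  have hcard : n ≤ Nat.card G.edgeSet + 2 := by
    let S : Finset V := (univ.erase c).erase v
    have hS : #S = n - 2 := by
      rw [card_erase_of_mem (mem_erase.2 ⟨hcv.symm, mem_univ _⟩), card_erase_of_mem (mem_univ _),
        card_univ]
      rfl
    have hSm : ∀ x ∈ S, x ≠ c ∧ x ≠ v := fun x hx =>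
      ⟨ne_of_mem_erase (mem_of_mem_erase hx), ne_of_mem_erase hx⟩
    let F : S → G.edgeSet := fun x => ⟨s(x.1, π x.1), (h1 x.1 (hSm x.1 x.2).1 (hSm x.1 x.2).2).2⟩
    have hF : Injective F := by
      intro x x' hh
      have h3 : s(x.1, π x.1) = s(x'.1, π x'.1) := congrArg Subtype.val hh
      have h4 := congrArg (esum y) h3
      rw [esum_mk, esum_mk] at h4
      exact Subtype.ext (hi _ _ (hSm x.1 x.2).1 (hSm x.1 x.2).2 (hSm x'.1 x'.2).1
        (hSm x'.1 x'.2).2 h4)
    have h3 := Nat.card_le_card_of_injective F hF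
    have h4 : Nat.card S = #S := by rw [Nat.card_eq_fintype_card, Fintype.card_coe]
    omega
  refine ⟨fun x => n + 1 - y x, ?_, ?_, fun e => n - 1 + esum y e.1, ?_, ?_, 3 * n + 1, ?_⟩
  · intro x x' hh
    have h3 := hle x
    have h4 := hle x'
    change n + 1 - y x = n + 1 - y x' at hh
    exact hy (by omega)
  · intro x
    have h3 := hle x
    change 1 ≤ n + 1 - y x ∧ n + 1 - y x ≤ n + 1
    omega
  · rintro ⟨e, he⟩ ⟨e', he'⟩ hh
    obtain ⟨x, hxc, hxv, rfl⟩ := hedge e he
    obtain ⟨x', hxc', hxv', rfl⟩ := hedge e' he'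
    change n - 1 + esum y s(x, π x) = n - 1 + esum y s(x', π x') at hh
    rw [esum_mk, esum_mk] at hh
    have := hi x x' hxc hxv hxc' hxv' (by omega)
    subst this
    rfl
  · rintro ⟨e, he⟩
    obtain ⟨x, hxc, hxv, rfl⟩ := hedge e he
    change n + 1 + 1 ≤ n - 1 + esum y s(x, π x) ∧ n - 1 + esum y s(x, π x) ≤ _
    rw [esum_mk]
    have h3 := hs x hxc hxv
    omega
  · rintro ⟨e, he⟩ a b (rfl : e = s(a, b))
    change n + 1 - y a + (n + 1 - y b) + (n - 1 + esum y s(a, b)) = 3 * n + 1
    rw [esum_mk]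
    have h3 := hle a
    have h4 := hle b
    have h5 : 1 ≤ n := Fintype.card_pos_iff.2 ⟨c⟩
    omega

end Pool.Agent.Helper1.SEM
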