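import Mathlib

set_option autoImplicit false
set_option linter.unusedSectionVars false

/-!
# Growing labellings of rooted forests (MP_6afe48_co)
-/

namespace Pool.Agent.Helper1.SEM

open Finset Function

variable {V : Type} [Fintype V] [DecidableEq V]

/-- `x` has a child (`π` = parent function, `c`, `v` = roots). -/
def HasChild (c v : V) (π : V → V) (x : V) : Prop := ∃ z, z ≠ c ∧ z ≠ v ∧ π z = x

/-- A partial labelling: `S` = set of the labelled vertices (without `c`), `σ` = pending sum. -/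
structure Good (c v : V) (π : V → V) (y : V → ℕ) (S : Finset V) (σ : ℕ) : Prop where
  hc : c ∉ S
  hv : v ∈ S
  yc : y c = 0
  yv : y v = 1
  pos : ∀ x ∈ S, 1 ≤ y x
  lt : ∀ x ∈ S, y x < σ
  inj : ∀ x ∈ S, ∀ x' ∈ S, y x = y x' → x = x'
  two : (∃ x ∈ S, y x = 2) ∨ σ = 2
  down : ∀ x ∈ S, x ≠ v → π x = c ∨ π x ∈ S
  leaf : ∀ x ∈ S, x ≠ v → π x = c → HasChild c v π x
  sum3 : ∀ x ∈ S, x ≠ v → 3 ≤ y x + y (π x)
  sumT : ∀ x ∈ S, x ≠ v → y x + y (π x) = σ ∨ ∃ x' ∈ S, y x' = y x + y (π x)
  sinj : ∀ x ∈ S, x ≠ v → ∀ x' ∈ S, x' ≠ v → y x + y (π x) = y x' + y (π x') → x = x'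

variable {c v : V} {π : V → V} {y : V → ℕ} {S : Finset V} {σ : ℕ}

theorem Good.sum_le (h : Good c v π y S σ) {x : V} (hx : x ∈ S) (hxv : x ≠ v) :
    y x + y (π x) ≤ σ := by
  rcases h.sumT x hx hxv with h1 | ⟨x', hx', h1⟩
  · exact h1.le
  · rw [← h1]; exact (h.lt x' hx').le

/-- One step of the growth. -/
theorem Good.grow (h : Good c v π y S σ) {x : V} (hxS : x ∉ S) (hxc : x ≠ c) (hp : π x ∈ S) :
    Good c v π (update y x σ) (insert x S) (σ + y (π x)) := by
  have hne : ∀ z ∈ S, z ≠ x := fun z hz e => hxS (e ▸ hz)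
  have hup : ∀ z ∈ S, update y x σ z = y z := fun z hz => update_of_ne (hne z hz) _ _
  have hupc : update y x σ c = y c := update_of_ne hxc.symm _ _
  have hupx : update y x σ x = σ := update_self _ _ _
  have hxv : x ≠ v := (hne v h.hv).symm
  have hpi : ∀ z ∈ S, z ≠ v → update y x σ (π z) = y (π z) := by
    intro z hz hzv
    rcases h.down z hz hzv with e | e
    · rw [e, hupc]
    · exact hup _ e
  have hpx : update y x σ (π x) = y (π x) := hup _ hp
  have hσ : 2 ≤ σ := by have := h.lt v h.hv; rw [h.yv] at this; omega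
  have hpp := h.pos _ hp
  refine ⟨?_, mem_insert_of_mem h.hv, by rw [hupc, h.yc], by rw [hup v h.hv, h.yv], ?_, ?_, ?_, ?_,
    ?_, ?_, ?_, ?_, ?_⟩
  · rw [mem_insert, not_or]; exact ⟨hxc.symm, h.hc⟩
  · intro z hz
    rcases mem_insert.1 hz with rfl | hz
    · rw [hupx]; omega
    · rw [hup z hz]; exact h.pos z hz
  · intro z hz
    rcases mem_insert.1 hz with rfl | hz
    · rw [hupx]; omega
    · rw [hup z hz]; have := h.lt z hz; omega
  · intro z hz z' hz' e
    rcases mem_insert.1 hz with rfl | hz1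
    · rcases mem_insert.1 hz' with rfl | hz1'
      · rfl
      · rw [hupx, hup z' hz1'] at e
        have := h.lt z' hz1'; omega
    · rcases mem_insert.1 hz' with rfl | hz1'
      · rw [hupx, hup z hz1] at e
        have := h.lt z hz1; omega
      · rw [hup z hz1, hup z' hz1'] at e
        exact h.inj z hz1 z' hz1' e
  · left
    rcases h.two with ⟨z, hz, e⟩ | e
    · exact ⟨z, mem_insert_of_mem hz, by rw [hup z hz, e]⟩
    · exact ⟨x, mem_insert_self _ _, by rw [hupx, e]⟩
  · intro z hz hzv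
    rcases mem_insert.1 hz with rfl | hz
    · exact Or.inr (mem_insert_of_mem hp)
    · rcases h.down z hz hzv with e | e
      · exact Or.inl e
      · exact Or.inr (mem_insert_of_mem e)
  · intro z hz hzv e
    rcases mem_insert.1 hz with rfl | hz
    · exact absurd (e ▸ hp) h.hc
    · exact h.leaf z hz hzv e
  · intro z hz hzv
    rcases mem_insert.1 hz with rfl | hz
    · rw [hupx, hpx]; omega
    · rw [hup z hz, hpi z hz hzv]; exact h.sum3 z hz hzv
  · intro z hz hzv
    rcases mem_insert.1 hz with rfl | hz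
    · left; rw [hupx, hpx]
    · right
      rw [hup z hz, hpi z hz hzv]
      rcases h.sumT z hz hzv with e | ⟨x', hx', e⟩
      · exact ⟨x, mem_insert_self _ _, by rw [hupx, e]⟩
      · exact ⟨x', mem_insert_of_mem hx', by rw [hup x' hx', e]⟩
  · intro z hz hzv z' hz' hzv' e
    rcases mem_insert.1 hz with rfl | hz1
    · rcases mem_insert.1 hz' with rfl | hz1'
      · rfl
      · rw [hupx, hpx, hup z' hz1', hpi z' hz1' hzv'] at e
        have := h.sum_le hz1' hzv'; omega
    · rcases mem_insert.1 hz' with rfl | hz1'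
      · rw [hupx, hpx, hup z hz1, hpi z hz1 hzv] at e
        have := h.sum_le hz1 hzv; omega
      · rw [hup z hz1, hpi z hz1 hzv, hup z' hz1', hpi z' hz1' hzv'] at e
        exact h.sinj z hz1 hzv z' hz1' hzv' e

/-- The start, if every child of `c` is a leaf. -/
theorem good_start (hcv : c ≠ v) (π : V → V) :
    Good c v π (update (fun _ => 0) v 1) {v} 2 := by
  have hv : update (fun _ : V => 0) v 1 v = 1 := update_self _ _ _
  refine ⟨?_, mem_singleton_self _, by rw [update_of_ne hcv], hv, ?_, ?_, ?_, Or.inr rfl, ?_, ?_,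
    ?_, ?_, ?_⟩
  · rw [mem_singleton]; exact hcv
  · intro x hx; rw [mem_singleton.1 hx, hv]
  · intro x hx; rw [mem_singleton.1 hx, hv]; norm_num
  · intro x hx x' hx' _; rw [mem_singleton.1 hx, mem_singleton.1 hx']
  all_goals intro x hx hxv; exact absurd (mem_singleton.1 hx) hxv

/-- The start, if `U` is the set of the children of `c` which are not leaves, `w` is a child of
`u ∈ U`. -/
theorem good_start' (hcv : c ≠ v) {U : Finset V}
    (hU : ∀ x ∈ U, x ≠ c ∧ x ≠ v ∧ π x = c ∧ HasChild c v π x) {u w : V} (hu : u ∈ U)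
    (hwc : w ≠ c) (hwv : w ≠ v) (hw : π w = u) :
    ∃ y, Good c v π y (insert v (insert w U)) (#U + 4) ∧
      (∀ x ∈ insert v (insert w U), y x ≤ #U + 2) := by
  have hcard : 1 ≤ #U := card_pos.2 ⟨u, hu⟩
  have hc1 : #(U.erase u) = #U - 1 := card_erase_of_mem hu
  let e : (U.erase u) ≃ Fin (#U - 1) := (U.erase u).equivFinOfCardEq hc1
  have hwU : w ∉ U := fun h => (hU u hu).1 (hw ▸ (hU w h).2.2.1)
  have hvU : v ∉ U := fun h => (hU v h).2.1 rfl
  have hcU : c ∉ U := fun h => (hU c h).1 rfl
  have huv : u ≠ v := (hU u hu).2.1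
  have huw : u ≠ w := fun h => hwU (h ▸ hu)
  let y : V → ℕ := fun x => if x = v then 1 else if x = w then 2 else if x = u then #U + 2 else
    if h : x ∈ U.erase u then (e ⟨x, h⟩ : ℕ) + 3 else 0
  have yv : y v = 1 := by simp [y]
  have yw : y w = 2 := by simp [y, hwv]
  have yu : y u = #U + 2 := by simp [y, huv, huw]
  have yU : ∀ x (h : x ∈ U.erase u), y x = (e ⟨x, h⟩ : ℕ) + 3 := by
    intro x h
    have hxU := mem_of_mem_erase h
    have h1 : x ≠ v := fun e => hvU (e ▸ hxU)
    have h2 : x ≠ w := fun e => hwU (e ▸ hxU)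
    have h3 : x ≠ u := ne_of_mem_erase h
    simp only [y, h1, h2, h3, if_false]
    rw [dif_pos h]
  have yc : y c = 0 := by
    have h1 : c ∉ U.erase u := fun h => hcU (mem_of_mem_erase h)
    have h2 : c ≠ u := fun h => hcU (h ▸ hu)
    simp only [y, hcv, hwc.symm, h2, if_false]
    rw [dif_neg h1]
  have yUb : ∀ x ∈ U, 3 ≤ y x ∧ y x ≤ #U + 2 := by
    intro x hx
    by_cases h : x = u
    · rw [h, yu]; omega
    · have := yU x (mem_erase.2 ⟨h, hx⟩)
      have h2 := (e ⟨x, mem_erase.2 ⟨h, hx⟩⟩).2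
      omega
  have yUi : ∀ x ∈ U, ∀ x' ∈ U, y x = y x' → x = x' := by
    intro x hx x' hx' hh
    by_cases h : x = u
    · by_cases h' : x' = u
      · rw [h, h']
      · rw [h, yu, yU x' (mem_erase.2 ⟨h', hx'⟩)] at hh
        have h2 := (e ⟨x', mem_erase.2 ⟨h', hx'⟩⟩).2
        omega
    · by_cases h' : x' = u
      · rw [h', yu, yU x (mem_erase.2 ⟨h, hx⟩)] at hh
        have h2 := (e ⟨x, mem_erase.2 ⟨h, hx⟩⟩).2
        omega
      · rw [yU x (mem_erase.2 ⟨h, hx⟩), yU x' (mem_erase.2 ⟨h', hx'⟩)] at hh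
        have h3 : e ⟨x, mem_erase.2 ⟨h, hx⟩⟩ = e ⟨x', mem_erase.2 ⟨h', hx'⟩⟩ :=
          Fin.ext (by omega)
        exact congrArg Subtype.val (e.injective h3)
  have hcase : ∀ x ∈ insert v (insert w U), x = v ∨ x = w ∨ x ∈ U := by
    intro x hx
    rcases mem_insert.1 hx with h | h
    · exact Or.inl h
    · exact Or.inr (mem_insert.1 h)
  have hUS : ∀ x ∈ U, x ∈ insert v (insert w U) := fun x hx =>
    mem_insert_of_mem (mem_insert_of_mem hx)
  have hwS : w ∈ insert v (insert w U) := mem_insert_of_mem (mem_insert_self _ _)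
  refine ⟨y, ⟨?_, mem_insert_self _ _, yc, yv, ?_, ?_, ?_, Or.inl ⟨w, hwS, yw⟩, ?_, ?_, ?_, ?_,
    ?_⟩, ?_⟩
  · rw [mem_insert, mem_insert, not_or, not_or]
    exact ⟨hcv, hwc.symm, hcU⟩
  · intro x hx
    rcases hcase x hx with rfl | rfl | h
    · omega
    · omega
    · have := yUb x h; omega
  · intro x hx
    rcases hcase x hx with rfl | rfl | h
    · omega
    · omega
    · have := yUb x h; omega
  · intro x hx x' hx' hh
    rcases hcase x hx with rfl | rfl | h
    · rcases hcase x' hx' with rfl | rfl | h'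
      · rfl
      · omega
      · have := yUb x' h'; omega
    · rcases hcase x' hx' with rfl | rfl | h'
      · omega
      · rfl
      · have := yUb x' h'; omega
    · rcases hcase x' hx' with rfl | rfl | h'
      · have := yUb x h; omega
      · have := yUb x h; omega
      · exact yUi x h x' h' hh
  · intro x hx hxv
    rcases hcase x hx with rfl | rfl | h
    · exact absurd rfl hxv
    · right; rw [hw]; exact hUS u hu
    · left; exact (hU x h).2.2.1
  · intro x hx hxv hxc
    rcases hcase x hx with rfl | rfl | h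
    · exact absurd rfl hxv
    · rw [hw] at hxc; exact absurd hxc (hU u hu).1
    · exact (hU x h).2.2.2
  · intro x hx hxv
    rcases hcase x hx with rfl | rfl | h
    · exact absurd rfl hxv
    · rw [hw, yw, yu]; omega
    · have := yUb x h; omega
  · intro x hx hxv
    rcases hcase x hx with rfl | rfl | h
    · exact absurd rfl hxv
    · left; rw [hw, yw, yu]; omega
    · right; exact ⟨x, hx, by rw [(hU x h).2.2.1, yc]; rfl⟩
  · intro x hx hxv x' hx' hxv' hh
    rcases hcase x hx with rfl | rfl | h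
    · exact absurd rfl hxv
    · rcases hcase x' hx' with rfl | rfl | h'
      · exact absurd rfl hxv'
      · rfl
      · rw [hw, yw, yu, (hU x' h').2.2.1, yc] at hh
        have := yUb x' h'; omega
    · rcases hcase x' hx' with rfl | rfl | h'
      · exact absurd rfl hxv'
      · rw [hw, yw, yu, (hU x h).2.2.1, yc] at hh
        have := yUb x h; omega
      · rw [(hU x h).2.2.1, (hU x' h').2.2.1, yc] at hh
        exact yUi x h x' h' (by omega)
  · intro x hx
    rcases hcase x hx with rfl | rfl | h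
    · omega
    · omega
    · exact (yUb x h).2

end Pool.Agent.Helper1.SEM
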