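import Pool.Agent.Helper1.SEM.Grow

set_option autoImplicit false
set_option linter.unusedSectionVars false

/-!
# Growing labellings of rooted forests, II (MP_6afe48_co)
-/

namespace Pool.Agent.Helper1.SEM

open Finset Function

variable {V : Type} [Fintype V] [DecidableEq V]
  {c v : V} {π : V → V} {y : V → ℕ} {S : Finset V} {σ : ℕ}

theorem swap_lt {a b x n : ℕ} (ha : a < n) (hb : b < n) (hx : x < n) : Equiv.swap a b x < n := by
  by_cases h1 : x = a
  · rw [h1, Equiv.swap_apply_left]; exact hb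
  by_cases h2 : x = b
  · rw [h2, Equiv.swap_apply_right]; exact ha
  · rw [Equiv.swap_apply_of_ne_of_ne h1 h2]; exact hx

/-- A numbering with a given first and a given last element. -/
theorem exists_numbering (U : Finset V) {u u' : V} (hu : u ∈ U) (hu' : u' ∈ U)
    (h : u ≠ u' ∨ #U = 1) :
    ∃ g : V → ℕ, (∀ x ∈ U, g x < #U) ∧ (∀ x ∈ U, ∀ x' ∈ U, g x = g x' → x = x') ∧ g u = 0 ∧
      g u' = #U - 1 := by
  have hpos : 0 < #U := card_pos.2 ⟨u, hu⟩
  let e : U ≃ Fin #U := U.equivFin
  let g0 : V → ℕ := fun x => if hx : x ∈ U then (e ⟨x, hx⟩ : ℕ) else 0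
  have h0 : ∀ x (hx : x ∈ U), g0 x = (e ⟨x, hx⟩ : ℕ) := fun x hx => dif_pos hx
  have h0l : ∀ x ∈ U, g0 x < #U := fun x hx => by rw [h0 x hx]; exact (e ⟨x, hx⟩).2
  have h0i : ∀ x ∈ U, ∀ x' ∈ U, g0 x = g0 x' → x = x' := by
    intro x hx x' hx' hh
    rw [h0 x hx, h0 x' hx'] at hh
    exact congrArg Subtype.val (e.injective (Fin.ext hh))
  let g1 : V → ℕ := fun x => Equiv.swap (g0 u) 0 (g0 x)
  have h1l : ∀ x ∈ U, g1 x < #U := fun x hx => swap_lt (h0l u hu) hpos (h0l x hx)
  have h1i : ∀ x ∈ U, ∀ x' ∈ U, g1 x = g1 x' → x = x' := fun x hx x' hx' hh =>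
    h0i x hx x' hx' ((Equiv.swap (g0 u) 0).injective hh)
  have h1u : g1 u = 0 := Equiv.swap_apply_left _ _
  let g2 : V → ℕ := fun x => Equiv.swap (g1 u') (#U - 1) (g1 x)
  refine ⟨g2, fun x hx => swap_lt (h1l u' hu') (by omega) (h1l x hx),
    fun x hx x' hx' hh => h1i x hx x' hx' ((Equiv.swap (g1 u') (#U - 1)).injective hh), ?_,
    Equiv.swap_apply_left _ _⟩
  change Equiv.swap (g1 u') (#U - 1) (g1 u) = 0
  by_cases huu : u = u'
  · subst huu
    have h2 : #U = 1 := h.resolve_left (fun h => h rfl)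
    rw [Equiv.swap_apply_left, h2]
  · have h2 : 2 ≤ #U := by
      have h3 : ({u, u'} : Finset V) ⊆ U := by
        intro x hx
        rcases mem_insert.1 hx with rfl | hx
        · exact hu
        · rw [mem_singleton.1 hx]; exact hu'
      have h4 := card_le_card h3
      rwa [card_pair huu] at h4
    have h3 : g1 u ≠ g1 u' := fun hh => huu (h1i u hu u' hu' hh)
    rw [Equiv.swap_apply_of_ne_of_ne h3 (by rw [h1u]; omega), h1u]

/-- All children of `c` which are not leaves and one grandchild of `c` are added. -/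
theorem Good.growU (h : Good c v π y S σ) {U : Finset V}
    (hU : ∀ x ∈ U, x ≠ c ∧ x ≠ v ∧ π x = c ∧ HasChild c v π x) (hUS : ∀ x ∈ U, x ∉ S)
    {u u' w : V} (hu : u ∈ U) (hu' : u' ∈ U) (huu : u ≠ u' ∨ #U = 1)
    (hwc : w ≠ c) (hwv : w ≠ v) (hw : π w = u') :
    ∃ y', Good c v π y' (insert w (S ∪ U)) (2 * σ + #U) ∧ (∀ x ∈ S, y' x = y x) ∧
      y' u = σ + 1 ∧ ∀ x ∈ insert w (S ∪ U), y' x ≤ σ + #U := by
  obtain ⟨g, hg1, hg2, hg3, hg4⟩ := exists_numbering U hu hu' huu
  have hpos : 1 ≤ #U := card_pos.2 ⟨u, hu⟩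
  have hwS : w ∉ S := by
    intro hh
    rcases h.down w hh hwv with h1 | h1
    · rw [hw] at h1; exact (hU u' hu').1 h1
    · rw [hw] at h1; exact hUS u' hu' h1
  have hwU : w ∉ U := fun hh => (hU u' hu').1 (hw ▸ (hU w hh).2.2.1)
  have hcU : c ∉ U := fun hh => (hU c hh).1 rfl
  have hσ : 2 ≤ σ := by have := h.lt v h.hv; rw [h.yv] at this; omega
  let y' : V → ℕ := fun x => if x ∈ S then y x else if x = w then σ else
    if x ∈ U then σ + 1 + g x else 0
  have yS : ∀ x ∈ S, y' x = y x := fun x hx => if_pos hx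
  have yw : y' w = σ := by simp only [y', hwS, if_false, if_true]
  have yU : ∀ x ∈ U, y' x = σ + 1 + g x := by
    intro x hx
    have h1 : x ∉ S := hUS x hx
    have h2 : x ≠ w := fun e => hwU (e ▸ hx)
    simp only [y', h1, h2, hx, if_false, if_true]
  have yc : y' c = 0 := by
    simp only [y', h.hc, hwc.symm, hcU, if_false]
  have hcase : ∀ x ∈ insert w (S ∪ U), x ∈ S ∨ x = w ∨ x ∈ U := by
    intro x hx
    rcases mem_insert.1 hx with h1 | h1
    · exact Or.inr (Or.inl h1)
    · rcases mem_union.1 h1 with h1 | h1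
      · exact Or.inl h1
      · exact Or.inr (Or.inr h1)
  have hS' : ∀ x ∈ S, x ∈ insert w (S ∪ U) := fun x hx => mem_insert_of_mem (mem_union_left _ hx)
  have hU' : ∀ x ∈ U, x ∈ insert w (S ∪ U) := fun x hx => mem_insert_of_mem (mem_union_right _ hx)
  have hsS : ∀ x ∈ S, x ≠ v → y' x + y' (π x) = y x + y (π x) := by
    intro x hx hxv
    rw [yS x hx]
    rcases h.down x hx hxv with h1 | h1
    · rw [h1, yc, h.yc]
    · rw [yS _ h1]
  have hsw : y' w + y' (π w) = 2 * σ + #U := by
    rw [hw, yw, yU u' hu', hg4]; omega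
  have hsU : ∀ x ∈ U, y' x + y' (π x) = σ + 1 + g x := by
    intro x hx
    rw [(hU x hx).2.2.1, yc, yU x hx]; rfl
  refine ⟨y', ⟨?_, hS' v h.hv, yc, by rw [yS v h.hv, h.yv], ?_, ?_, ?_, ?_, ?_, ?_, ?_, ?_, ?_⟩,
    yS, by rw [yU u hu, hg3], ?_⟩
  · rw [mem_insert, mem_union, not_or, not_or]
    exact ⟨hwc.symm, h.hc, hcU⟩
  · intro x hx
    rcases hcase x hx with hx | rfl | hx
    · rw [yS x hx]; exact h.pos x hx
    · omega
    · rw [yU x hx]; omega
  · intro x hx
    rcases hcase x hx with hx | rfl | hx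
    · rw [yS x hx]; have := h.lt x hx; omega
    · omega
    · rw [yU x hx]; have := hg1 x hx; omega
  · intro x hx x' hx' hh
    rcases hcase x hx with hx1 | hx1 | hx1
    · rcases hcase x' hx' with hx2 | hx2 | hx2
      · rw [yS x hx1, yS x' hx2] at hh; exact h.inj x hx1 x' hx2 hh
      · rw [yS x hx1, hx2, yw] at hh; have := h.lt x hx1; omega
      · rw [yS x hx1, yU x' hx2] at hh; have := h.lt x hx1; omega
    · rcases hcase x' hx' with hx2 | hx2 | hx2
      · rw [yS x' hx2, hx1, yw] at hh; have := h.lt x' hx2; omega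
      · rw [hx1, hx2]
      · rw [yU x' hx2, hx1, yw] at hh; omega
    · rcases hcase x' hx' with hx2 | hx2 | hx2
      · rw [yS x' hx2, yU x hx1] at hh; have := h.lt x' hx2; omega
      · rw [yU x hx1, hx2, yw] at hh; omega
      · rw [yU x hx1, yU x' hx2] at hh; exact hg2 x hx1 x' hx2 (by omega)
  · left
    rcases h.two with ⟨z, hz, e⟩ | e
    · exact ⟨z, hS' z hz, by rw [yS z hz, e]⟩
    · exact ⟨w, mem_insert_self _ _, by rw [yw, e]⟩
  · intro x hx hxv
    rcases hcase x hx with hx | rfl | hx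
    · rcases h.down x hx hxv with e | e
      · exact Or.inl e
      · exact Or.inr (hS' _ e)
    · right; rw [hw]; exact hU' u' hu'
    · left; exact (hU x hx).2.2.1
  · intro x hx hxv hxc
    rcases hcase x hx with hx | rfl | hx
    · exact h.leaf x hx hxv hxc
    · rw [hw] at hxc; exact absurd hxc (hU u' hu').1
    · exact (hU x hx).2.2.2
  · intro x hx hxv
    rcases hcase x hx with hx | rfl | hx
    · rw [hsS x hx hxv]; exact h.sum3 x hx hxv
    · rw [hsw]; omega
    · rw [hsU x hx]; omega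
  · intro x hx hxv
    rcases hcase x hx with hx | rfl | hx
    · right
      rw [hsS x hx hxv]
      rcases h.sumT x hx hxv with e | ⟨x', hx', e⟩
      · exact ⟨w, mem_insert_self _ _, by rw [yw, e]⟩
      · exact ⟨x', hS' x' hx', by rw [yS x' hx', e]⟩
    · left; exact hsw
    · right; exact ⟨x, hU' x hx, by rw [hsU x hx, yU x hx]⟩
  · intro x hx hxv x' hx' hxv' hh
    rcases hcase x hx with hx1 | hx1 | hx1
    · rcases hcase x' hx' with hx2 | hx2 | hx2
      · rw [hsS x hx1 hxv, hsS x' hx2 hxv'] at hh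
        exact h.sinj x hx1 hxv x' hx2 hxv' hh
      · rw [hsS x hx1 hxv, hx2, hsw] at hh; have := h.sum_le hx1 hxv; omega
      · rw [hsS x hx1 hxv, hsU x' hx2] at hh; have := h.sum_le hx1 hxv; omega
    · rcases hcase x' hx' with hx2 | hx2 | hx2
      · rw [hsS x' hx2 hxv', hx1, hsw] at hh; have := h.sum_le hx2 hxv'; omega
      · rw [hx1, hx2]
      · rw [hsU x' hx2, hx1, hsw] at hh; have := hg1 x' hx2; omega
    · rcases hcase x' hx' with hx2 | hx2 | hx2
      · rw [hsS x' hx2 hxv', hsU x hx1] at hh; have := h.sum_le hx2 hxv'; omega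
      · rw [hsU x hx1, hx2, hsw] at hh; have := hg1 x hx1; omega
      · rw [hsU x hx1, hsU x' hx2] at hh; exact hg2 x hx1 x' hx2 (by omega)
  · intro x hx
    rcases hcase x hx with hx | rfl | hx
    · rw [yS x hx]; have := h.lt x hx; omega
    · omega
    · rw [yU x hx]; have := hg1 x hx; omega

/-- Vertices whose parents are in `S` are added. -/
theorem Good.growAll (A : Finset V) (K : ℕ) :
    ∀ (y : V → ℕ) (σ : ℕ), Good c v π y S σ →
      (∀ x ∈ A, x ≠ c ∧ π x ∈ S ∧ y (π x) ≤ K) →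
      ∃ (y' : V → ℕ) (σ' : ℕ), Good c v π y' (S ∪ A) σ' ∧ (∀ x ∈ S, y' x = y x) ∧
        σ' ≤ σ + K * #(A \ S) := by
  induction A using Finset.induction_on with
  | empty =>
    intro y σ h _
    exact ⟨y, σ, by rwa [union_empty], fun _ _ => rfl, by omega⟩
  | insert a A haA ih =>
    intro y σ h hA
    obtain ⟨y1, σ1, h1, h2, h3⟩ := ih y σ h (fun x hx => hA x (mem_insert_of_mem hx))
    obtain ⟨hac, haS, haK⟩ := hA a (mem_insert_self _ _)
    by_cases ha : a ∈ S
    · refine ⟨y1, σ1, ?_, h2, ?_⟩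
      · have : S ∪ insert a A = S ∪ A := by
          ext z; simp only [mem_union, mem_insert]
          constructor
          · rintro (h4 | rfl | h4)
            · exact Or.inl h4
            · exact Or.inl ha
            · exact Or.inr h4
          · rintro (h4 | h4)
            · exact Or.inl h4
            · exact Or.inr (Or.inr h4)
        rwa [this]
      · have : insert a A \ S = A \ S := insert_sdiff_of_mem _ ha
        rw [this]; exact h3
    · have ha1 : a ∉ S ∪ A := by
        rw [mem_union, not_or]; exact ⟨ha, haA⟩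
      have hg := h1.grow ha1 hac (mem_union_left _ haS)
      have e1 : insert a (S ∪ A) = S ∪ insert a A := by
        rw [union_insert]
      rw [e1] at hg
      refine ⟨_, _, hg, fun x hx => ?_, ?_⟩
      · rw [update_of_ne (fun e : x = a => ha (e ▸ hx)), h2 x hx]
      · have e2 : insert a A \ S = insert a (A \ S) := insert_sdiff_of_notMem _ ha
        have e3 : a ∉ A \ S := fun hh => haA (mem_sdiff.1 hh).1
        rw [e2, card_insert_of_notMem e3, h2 _ haS, mul_add, mul_one]
        omega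

end Pool.Agent.Helper1.SEM
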