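import Pool.Agent.Helper1.SEM.Forest

set_option autoImplicit false

/-!
# Forests with two components and a vertex with many pendant vertices (MP_6afe48_co)
-/

namespace Pool.Agent.Helper1.SEM.Hub

open Pool.Agent.Helper1.SEM

/-- The graph `G ∪ n K₁` is super edge-magic: the vertices of `G` get distinct labels in
`1, …, p + n` (the others are the labels of the isolated vertices), its edges get the labels
`p + n + 1, …, p + n + q`, all sums `f(u) + f(uv) + f(v)` are equal. -/
def SuperEdgeMagic {V : Type} [Fintype V] (G : SimpleGraph V) (n : ℕ) : Prop :=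
  ∃ f : V → ℕ, Function.Injective f ∧
    (∀ v, 1 ≤ f v ∧ f v ≤ Fintype.card V + n) ∧
    ∃ g : G.edgeSet → ℕ, Function.Injective g ∧
      (∀ e, Fintype.card V + n + 1 ≤ g e ∧
            g e ≤ Fintype.card V + n + Nat.card G.edgeSet) ∧
      ∃ k : ℕ, ∀ (e : G.edgeSet) (u v : V),
        e.val = s(u, v) → f u + f v + g e = k

/-- The number of vertices whose only neighbour is `c` (the pendant vertices at `c`). -/
noncomputable def pendants {V : Type} (G : SimpleGraph V) (c : V) : ℕ :=
  {x | G.neighborSet x = {c}}.ncard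

/-- The number of vertices different from `c`, `v` with at least two neighbours. -/
noncomputable def inner {V : Type} (G : SimpleGraph V) (c v : V) : ℕ :=
  {x | x ≠ c ∧ x ≠ v ∧ (G.neighborSet x).Nontrivial}.ncard

/-- The number of vertices different from `c`, `v` with exactly one neighbour, this neighbour being
different from `c`, `v`. -/
noncomputable def otherLeaves {V : Type} (G : SimpleGraph V) (c v : V) : ℕ :=
  {x | x ≠ c ∧ x ≠ v ∧ ∃ u, u ≠ c ∧ u ≠ v ∧ G.neighborSet x = {u}}.ncard

/-- Let `c`, `v` be vertices in the two components of a forest, `h` the number of the other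
vertices which are not leaves and `l` the number of the other leaves which are adjacent neither to
`c` nor to `v`. If there are enough pendant vertices at `c`, then `G ∪ K₁` is super edge-magic. -/
theorem hub (V : Type) [Fintype V] (G : SimpleGraph V) (hG : G.IsAcyclic)
    (h2 : Nat.card G.ConnectedComponent = 2) (c v : V) (hcv : ¬ G.Reachable c v)
    (hm : Nat.fib (inner G c v + 4) + Nat.fib (inner G c v + 3) * otherLeaves G c v ≤
        pendants G c + inner G c v + otherLeaves G c v + 2 ∨
      ((∀ x, G.Adj c x → G.neighborSet x = {c}) ∧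
        Nat.fib (inner G c v + 3) + Nat.fib (inner G c v + 2) * otherLeaves G c v ≤
          pendants G c + inner G c v + otherLeaves G c v + 2)) :
    SuperEdgeMagic G 1 := by
  classical
  have hne : c ≠ v := fun e => hcv (e ▸ SimpleGraph.Reachable.refl c)
  have hall : ∀ x, G.Reachable c x ∨ G.Reachable v x := by
    intro x
    by_contra hcon
    rw [not_or] at hcon
    have : Finite G.ConnectedComponent := Nat.finite_of_card_ne_zero (by omega)
    have h3 : ({G.connectedComponentMk c, G.connectedComponentMk v, G.connectedComponentMk x} :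
        Finset G.ConnectedComponent).card = 3 := by
      rw [Finset.card_eq_three]
      refine ⟨_, _, _, ?_, ?_, ?_, rfl⟩
      · exact fun e => hcv (SimpleGraph.ConnectedComponent.exact e)
      · exact fun e => hcon.1 (SimpleGraph.ConnectedComponent.exact e)
      · exact fun e => hcon.2 (SimpleGraph.ConnectedComponent.exact e)
    have : Fintype G.ConnectedComponent := Fintype.ofFinite _
    have h4 := Finset.card_le_univ ({G.connectedComponentMk c, G.connectedComponentMk v,
      G.connectedComponentMk x} : Finset G.ConnectedComponent)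
    rw [Nat.card_eq_fintype_card] at h2
    omega
  obtain ⟨π, d, hπ, hedge⟩ := exists_parent G hG hcv hall
  -- neighbours
  have hnb : ∀ x, x ≠ c → x ≠ v → ¬ HasChild c v π x → G.neighborSet x = {π x} := by
    intro x hxc hxv hI
    ext z
    rw [SimpleGraph.mem_neighborSet, Set.mem_singleton_iff]
    constructor
    · intro hz
      rcases hedge x z hz with h | h
      · exact h.2.2
      · exact absurd ⟨z, h.1, h.2.1, h.2.2.symm⟩ hI
    · rintro rfl
      exact (hπ x hxc hxv).2
  have hnb2 : ∀ x, x ≠ c → x ≠ v → HasChild c v π x → (G.neighborSet x).Nontrivial := by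
    rintro x hxc hxv ⟨z, hzc, hzv, hz⟩
    have h3 := hπ z hzc hzv
    have h4 := hπ x hxc hxv
    rw [hz] at h3
    refine ⟨π x, h4.2, z, h3.2.symm, fun e => ?_⟩
    have h5 := h4.1
    rw [e] at h5
    omega
  have hcN : ∀ x, G.neighborSet x = {c} → x ≠ c ∧ x ≠ v := by
    intro x hx
    have h3 : G.Adj x c := by
      rw [← SimpleGraph.mem_neighborSet, hx]; exact rfl
    exact ⟨h3.ne, fun e => hcv (e ▸ h3.symm.reachable)⟩
  let H : Finset V := Finset.univ.filter (fun x => x ≠ c ∧ x ≠ v ∧ HasChild c v π x)
  let A : Finset V := Finset.univ.filter (fun x => x ≠ c ∧ x ≠ v ∧ ¬ HasChild c v π x ∧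
    π x ≠ c ∧ π x ≠ v)
  let L : Finset V := Finset.univ.filter (fun x => x ≠ c ∧ x ≠ v ∧ ¬ HasChild c v π x ∧ π x = c)
  have hH : ∀ x, x ∈ H ↔ x ≠ c ∧ x ≠ v ∧ HasChild c v π x := fun x => by
    simp only [H, Finset.mem_filter, Finset.mem_univ, true_and]
  have hA : ∀ x, x ∈ A ↔ x ≠ c ∧ x ≠ v ∧ ¬ HasChild c v π x ∧ π x ≠ c ∧ π x ≠ v := fun x => by
    simp only [A, Finset.mem_filter, Finset.mem_univ, true_and]
  have hL : ∀ x, x ∈ L ↔ x ≠ c ∧ x ≠ v ∧ ¬ HasChild c v π x ∧ π x = c := fun x => by
    simp only [L, Finset.mem_filter, Finset.mem_univ, true_and]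
  have eH : inner G c v = H.card := by
    rw [← Set.ncard_coe_finset]
    unfold inner
    congr 1
    ext x
    rw [Set.mem_ofPred_eq, Finset.mem_coe, hH]
    constructor
    · rintro ⟨hxc, hxv, hN⟩
      refine ⟨hxc, hxv, ?_⟩
      by_contra hI
      rw [hnb x hxc hxv hI] at hN
      exact Set.not_nontrivial_singleton hN
    · rintro ⟨hxc, hxv, hI⟩
      exact ⟨hxc, hxv, hnb2 x hxc hxv hI⟩
  have eA : otherLeaves G c v = A.card := by
    rw [← Set.ncard_coe_finset]
    unfold otherLeaves
    congr 1
    ext x
    rw [Set.mem_ofPred_eq, Finset.mem_coe, hA]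
    constructor
    · rintro ⟨hxc, hxv, u, huc, huv, hN⟩
      have hI : ¬ HasChild c v π x := by
        intro hI
        have := hnb2 x hxc hxv hI
        rw [hN] at this
        exact Set.not_nontrivial_singleton this
      have h3 : π x = u := by
        rw [hnb x hxc hxv hI] at hN
        exact Set.singleton_injective hN
      exact ⟨hxc, hxv, hI, h3 ▸ huc, h3 ▸ huv⟩
    · rintro ⟨hxc, hxv, hI, h3, h4⟩
      exact ⟨hxc, hxv, π x, h3, h4, hnb x hxc hxv hI⟩
  have eL : pendants G c = L.card := by
    rw [← Set.ncard_coe_finset]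
    unfold pendants
    congr 1
    ext x
    rw [Set.mem_ofPred_eq, Finset.mem_coe, hL]
    constructor
    · intro hN
      obtain ⟨hxc, hxv⟩ := hcN x hN
      have hI : ¬ HasChild c v π x := by
        intro hI
        have := hnb2 x hxc hxv hI
        rw [hN] at this
        exact Set.not_nontrivial_singleton this
      have h3 : π x = c := by
        rw [hnb x hxc hxv hI] at hN
        exact Set.singleton_injective hN
      exact ⟨hxc, hxv, hI, h3⟩
    · rintro ⟨hxc, hxv, hI, h3⟩
      rw [hnb x hxc hxv hI, h3]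
  rw [eH, eA, eL] at hm
  have hlab : ∃ y' : V → ℕ, Function.Injective y' ∧ (∀ x, y' x ≤ Fintype.card V) ∧
      (∀ x, x ≠ c → x ≠ v → 3 ≤ y' x + y' (π x) ∧ y' x + y' (π x) ≤ Fintype.card V) ∧
      ∀ x x', x ≠ c → x ≠ v → x' ≠ c → x' ≠ v → y' x + y' (π x) = y' x' + y' (π x') →
        x = x' := by
    rcases hm with hm | ⟨hstar, hm⟩
    · exact exists_labelling hne (fun x hxc hxv => (hπ x hxc hxv).1) hH hA hL
        (Or.inl (le_refl 3)) hm
    · refine exists_labelling hne (fun x hxc hxv => (hπ x hxc hxv).1) hH hA hL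
        (Or.inr ⟨rfl, fun x hx hxc => ?_⟩) hm
      obtain ⟨h3, h4, h5⟩ := (hH x).1 hx
      have h6 : G.Adj c x := hxc ▸ (hπ x h3 h4).2.symm
      have h7 := hnb2 x h3 h4 h5
      rw [hstar x h6] at h7
      exact Set.not_nontrivial_singleton h7
  obtain ⟨y, hy1, hy2, hy3, hy4⟩ := hlab
  exact sem_of_labelling G hne hπ hedge hy1 hy2 hy3 hy4

end Pool.Agent.Helper1.SEM.Hub
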