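import Pool.Agent.Helper1.SEM.Phases2
import Pool.Agent.Helper1.SEM.Forest

set_option autoImplicit false
set_option linter.unusedSectionVars false

/-!
# Labellings of rooted forests with three large stars, II (MP_6afe48_co)
-/

namespace Pool.Agent.Helper1.SEM

open Finset Function

section

variable {V : Type} [Fintype V] [DecidableEq V]
  {c v u : V} {π : V → V} {d : V → ℕ} {H A L : Finset V}

theorem fib_ge {a : ℕ} (ha : 1 ≤ a) :
    a + 2 ≤ Nat.fib (a + 3) ∧ a + 4 ≤ Nat.fib (a + 4) ∧ a + 4 ≤ Nat.fib (a + 5) ∧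
      a + 8 ≤ Nat.fib (a + 6) := by
  induction a, ha using Nat.le_induction with
  | base => decide
  | succ a ha ih =>
    have h1 : Nat.fib (a + 5) = Nat.fib (a + 3) + Nat.fib (a + 4) := Nat.fib_add_two
    have h2 : Nat.fib (a + 6) = Nat.fib (a + 4) + Nat.fib (a + 5) := Nat.fib_add_two
    have h3 : Nat.fib (a + 7) = Nat.fib (a + 5) + Nat.fib (a + 6) := Nat.fib_add_two
    rw [show a + 1 + 3 = a + 4 by ring, show a + 1 + 4 = a + 5 by ring,
      show a + 1 + 5 = a + 6 by ring, show a + 1 + 6 = a + 7 by ring]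
    omega

theorem exists_other {U : Finset V} {u : V} (hu : u ∈ U) : ∃ u' ∈ U, u ≠ u' ∨ #U = 1 := by
  by_cases h : ∃ u' ∈ U, u ≠ u'
  · obtain ⟨u', h1, h2⟩ := h
    exact ⟨u', h1, Or.inl h2⟩
  · refine ⟨u, hu, Or.inr (card_eq_one.2 ⟨u, ?_⟩)⟩
    ext x
    rw [mem_singleton]
    constructor
    · intro hx
      by_contra hne
      exact h ⟨x, hx, fun e => hne e.symm⟩
    · rintro rfl; exact hu

theorem exists_start (hcv : c ≠ v) (huc : u ≠ c) (huv : u ≠ v) (huI : HasChild c v π u)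
    (hcase : π u = c ∨ (π u = v ∧ ∃ w, w ≠ c ∧ w ≠ v ∧ w ≠ u ∧ π w = v))
    (hH : ∀ x, x ∈ H ↔ x ≠ c ∧ x ≠ v ∧ x ≠ u ∧ HasChild c v π x) :
    ∃ (y : V → ℕ) (S : Finset V) (σ j : ℕ), Good c v π y S σ ∧ u ∈ S ∧ y u = 3 ∧
      (∀ x ∈ H, π x = c → x ∈ S) ∧
      (∀ x ∈ S, (x = v ∨ HasChild c v π x) → y x ≤ Nat.fib j) ∧ σ ≤ Nat.fib (j + 1) ∧
      j + #(H \ S) ≤ #H + 5 := by
  classical
  let U : Finset V := univ.filter (fun x => x ≠ c ∧ x ≠ v ∧ π x = c ∧ HasChild c v π x)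
  have hUm : ∀ x, x ∈ U ↔ x ≠ c ∧ x ≠ v ∧ π x = c ∧ HasChild c v π x := fun x => by
    simp only [U, mem_filter, mem_univ, true_and]
  have hU : ∀ x ∈ U, x ≠ c ∧ x ≠ v ∧ π x = c ∧ HasChild c v π x := fun x hx => (hUm x).1 hx
  have hs := good_start hcv π
  have hv0 : update (fun _ : V => 0) v 1 v = 1 := update_self _ _ _
  rcases hcase with hc | ⟨hv, w1, hw1c, hw1v, hw1u, hw1⟩
  · -- `u` is adjacent to `c`
    have huU : u ∈ U := (hUm u).2 ⟨huc, huv, hc, huI⟩
    obtain ⟨u', hu', huu⟩ := exists_other huU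
    obtain ⟨w, hwc, hwv, hw⟩ := (hU u' hu').2.2.2
    have hUS : ∀ x ∈ U, x ∉ ({v} : Finset V) := fun x hx hh =>
      (hU x hx).2.1 (mem_singleton.1 hh)
    obtain ⟨y, hy, hy1, hy2, hy3⟩ := hs.growU hU hUS huU hu' huu hwc hwv hw
    have hpos : 1 ≤ #U := card_pos.2 ⟨u, huU⟩
    have hf := fib_ge hpos
    refine ⟨y, _, _, #U + 3, hy, mem_insert_of_mem (mem_union_right _ huU), hy2, ?_, ?_, ?_, ?_⟩
    · intro x hx hxc
      obtain ⟨h1, h2, h3, h4⟩ := (hH x).1 hx
      exact mem_insert_of_mem (mem_union_right _ ((hUm x).2 ⟨h1, h2, hxc, h4⟩))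
    · intro x hx _
      have := hy3 x hx
      omega
    · rw [show #U + 3 + 1 = #U + 4 by ring]; omega
    · have h1 : H \ insert w ({v} ∪ U) ⊆ H \ (U.erase u) := fun x hx => by
        simp only [mem_sdiff, mem_insert, mem_union, mem_singleton, not_or, mem_erase] at hx ⊢
        exact ⟨hx.1, fun hh => hx.2.2.2 hh.2⟩
      have h2 : U.erase u ⊆ H := fun x hx => by
        rw [mem_erase] at hx
        have h3 := hU x hx.2
        exact (hH x).2 ⟨h3.1, h3.2.1, hx.1, h3.2.2.2⟩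
      have h3 := card_le_card h1
      have h4 : #(H \ (U.erase u)) = #H - #(U.erase u) := card_sdiff_of_subset h2
      have h5 : #(U.erase u) = #U - 1 := card_erase_of_mem huU
      have h6 := card_le_card h2
      omega
  · -- `u` is adjacent to `v`
    have hw1S : w1 ∉ ({v} : Finset V) := fun hh => hw1v (mem_singleton.1 hh)
    have hg1 := hs.grow hw1S hw1c (by rw [hw1]; exact mem_singleton_self _)
    have hσ1 : 2 + update (fun _ : V => 0) v 1 (π w1) = 3 := by rw [hw1, hv0]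
    rw [hσ1] at hg1
    set y1 := update (update (fun _ : V => 0) v 1) w1 2 with hy1
    have hy1v : y1 v = 1 := by rw [hy1, update_of_ne hw1v.symm, hv0]
    have hy1w : y1 w1 = 2 := update_self _ _ _
    have huS1 : u ∉ insert w1 ({v} : Finset V) := by
      rw [mem_insert, mem_singleton, not_or]
      exact ⟨hw1u.symm, huv⟩
    have hg2 := hg1.grow huS1 huc (by rw [hv]; exact mem_insert_of_mem (mem_singleton_self _))
    have hσ2 : 3 + y1 (π u) = 4 := by rw [hv, hy1v]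
    rw [hσ2] at hg2
    set y2 := update y1 u 3 with hy2
    have hy2u : y2 u = 3 := update_self _ _ _
    have hy2v : y2 v = 1 := by rw [hy2, update_of_ne huv.symm, hy1v]
    have hy2w : y2 w1 = 2 := by rw [hy2, update_of_ne hw1u, hy1w]
    set S2 := insert u (insert w1 ({v} : Finset V)) with hS2
    have huS2 : u ∈ S2 := mem_insert_self _ _
    have hy2le : ∀ x ∈ S2, y2 x ≤ 3 := by
      intro x hx
      rcases mem_insert.1 hx with hx | hx
      · rw [hx]; omega
      rcases mem_insert.1 hx with hx | hx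
      · rw [hx]; omega
      · rw [mem_singleton.1 hx]; omega
    rcases U.eq_empty_or_nonempty with h0 | ⟨u0, hu0⟩
    · refine ⟨y2, S2, 4, 4, hg2, huS2, hy2u, ?_, ?_, by decide, ?_⟩
      · intro x hx hxc
        obtain ⟨h1, h2, h3, h4⟩ := (hH x).1 hx
        have : x ∈ U := (hUm x).2 ⟨h1, h2, hxc, h4⟩
        rw [h0] at this
        exact absurd this (notMem_empty _)
      · intro x hx _
        exact (hy2le x hx).trans (by decide)
      · have := card_le_card (sdiff_subset : H \ S2 ⊆ H)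
        omega
    · obtain ⟨u', hu', huu⟩ := exists_other hu0
      obtain ⟨w, hwc, hwv, hw⟩ := (hU u' hu').2.2.2
      have hUS : ∀ x ∈ U, x ∉ S2 := by
        intro x hx hh
        have h1 := hU x hx
        rcases mem_insert.1 hh with h2 | h2
        · rw [h2, hv] at h1; exact hcv h1.2.2.1.symm
        rcases mem_insert.1 h2 with h2 | h2
        · rw [h2, hw1] at h1; exact hcv h1.2.2.1.symm
        · exact h1.2.1 (mem_singleton.1 h2)
      obtain ⟨y, hy, hya, hyb, hyc⟩ := hg2.growU hU hUS hu0 hu' huu hwc hwv hw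
      have hpos : 1 ≤ #U := card_pos.2 ⟨u0, hu0⟩
      have hf := fib_ge hpos
      refine ⟨y, _, _, #U + 5, hy, mem_insert_of_mem (mem_union_left _ huS2),
        by rw [hya u huS2, hy2u], ?_, ?_, ?_, ?_⟩
      · intro x hx hxc
        obtain ⟨h1, h2, h3, h4⟩ := (hH x).1 hx
        exact mem_insert_of_mem (mem_union_right _ ((hUm x).2 ⟨h1, h2, hxc, h4⟩))
      · intro x hx _
        have := hyc x hx
        omega
      · rw [show #U + 5 + 1 = #U + 6 by ring]; omega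
      · have h1 : H \ insert w (S2 ∪ U) ⊆ H \ U := fun x hx => by
          simp only [mem_sdiff, mem_insert, mem_union, not_or] at hx ⊢
          exact ⟨hx.1, hx.2.2.2⟩
        have h2 : U ⊆ H := fun x hx => by
          have h3 := hU x hx
          refine (hH x).2 ⟨h3.1, h3.2.1, fun e => ?_, h3.2.2.2⟩
          rw [e, hv] at h3
          exact hcv h3.2.2.1.symm
        have h3 := card_le_card h1
        have h4 : #(H \ U) = #H - #U := card_sdiff_of_subset h2
        have h6 := card_le_card h2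
        omega

theorem exists_labelling' (hcv : c ≠ v) (hd : ∀ x, x ≠ c → x ≠ v → d (π x) < d x)
    (huc : u ≠ c) (huv : u ≠ v) (huI : HasChild c v π u)
    (hcase : π u = c ∨ (π u = v ∧ ∃ w, w ≠ c ∧ w ≠ v ∧ w ≠ u ∧ π w = v))
    (hH : ∀ x, x ∈ H ↔ x ≠ c ∧ x ≠ v ∧ x ≠ u ∧ HasChild c v π x)
    (hA : ∀ x, x ∈ A ↔ x ≠ c ∧ x ≠ v ∧ ¬ HasChild c v π x ∧ π x ≠ c ∧ π x ≠ v ∧ π x ≠ u)
    (hL : ∀ x, x ∈ L ↔ x ≠ c ∧ x ≠ v ∧ ¬ HasChild c v π x ∧ π x = c)
    (hm : Nat.fib (#H + 6) + Nat.fib (#H + 5) * #A ≤ #L + #H + #A + 3) :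
    ∃ (t : ℕ) (y' : V → ℕ), Injective y' ∧ (∀ x, y' x ≤ Fintype.card V) ∧
      (∀ x, x ≠ c → x ≠ v → t + 3 ≤ y' x + y' (π x) ∧ y' x + y' (π x) ≤ t + Fintype.card V) ∧
      ∀ x x', x ≠ c → x ≠ v → x' ≠ c → x' ≠ v → y' x + y' (π x) = y' x' + y' (π x') → x = x' := by
  classical
  let B : Finset V := univ.filter (fun x => x ≠ c ∧ x ≠ v ∧ ¬ HasChild c v π x ∧ π x = v)
  have hB : ∀ x, x ∈ B ↔ x ≠ c ∧ x ≠ v ∧ ¬ HasChild c v π x ∧ π x = v := fun x => by
    simp only [B, mem_filter, mem_univ, true_and]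
  let C : Finset V := univ.filter (fun x => x ≠ c ∧ x ≠ v ∧ ¬ HasChild c v π x ∧ π x = u)
  have hC : ∀ x, x ∈ C ↔ x ≠ c ∧ x ≠ v ∧ ¬ HasChild c v π x ∧ π x = u := fun x => by
    simp only [C, mem_filter, mem_univ, true_and]
  -- the number of vertices
  have hcard : #H + #A + #B + #L + #C + 3 ≤ Fintype.card V := by
    have hHA : Disjoint H A := by
      rw [disjoint_left]; intro x h1 h2
      exact ((hA x).1 h2).2.2.1 ((hH x).1 h1).2.2.2
    have hHAB : Disjoint (H ∪ A) B := by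
      rw [disjoint_left]; intro x h1 h2
      rcases mem_union.1 h1 with h1 | h1
      · exact ((hB x).1 h2).2.2.1 ((hH x).1 h1).2.2.2
      · exact ((hA x).1 h1).2.2.2.2.1 ((hB x).1 h2).2.2.2
    have hHABL : Disjoint (H ∪ A ∪ B) L := by
      rw [disjoint_left]; intro x h1 h2
      rcases mem_union.1 h1 with h1 | h1
      · rcases mem_union.1 h1 with h1 | h1
        · exact ((hL x).1 h2).2.2.1 ((hH x).1 h1).2.2.2
        · exact ((hA x).1 h1).2.2.2.1 ((hL x).1 h2).2.2.2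
      · exact hcv (((hL x).1 h2).2.2.2.symm.trans ((hB x).1 h1).2.2.2)
    have hHABLC : Disjoint (H ∪ A ∪ B ∪ L) C := by
      rw [disjoint_left]; intro x h1 h2
      have h3 := (hC x).1 h2
      rcases mem_union.1 h1 with h1 | h1
      · rcases mem_union.1 h1 with h1 | h1
        · rcases mem_union.1 h1 with h1 | h1
          · exact h3.2.2.1 ((hH x).1 h1).2.2.2
          · exact ((hA x).1 h1).2.2.2.2.2 h3.2.2.2
        · exact huv (h3.2.2.2.symm.trans ((hB x).1 h1).2.2.2)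
      · exact huc (h3.2.2.2.symm.trans ((hL x).1 h1).2.2.2)
    have hu' : u ∉ H ∪ A ∪ B ∪ L ∪ C := by
      simp only [mem_union, hH, hA, hB, hL, hC]
      rintro ((((h | h) | h) | h) | h)
      · exact h.2.2.1 rfl
      · exact h.2.2.1 huI
      · exact h.2.2.1 huI
      · exact h.2.2.1 huI
      · exact h.2.2.1 huI
    have hv' : v ∉ insert u (H ∪ A ∪ B ∪ L ∪ C) := by
      simp only [mem_insert, mem_union, hH, hA, hB, hL, hC]
      rintro (h | ((((h | h) | h) | h) | h))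
      · exact huv h.symm
      all_goals exact h.2.1 rfl
    have hc' : c ∉ insert v (insert u (H ∪ A ∪ B ∪ L ∪ C)) := by
      simp only [mem_insert, mem_union, hH, hA, hB, hL, hC]
      rintro (h | h | ((((h | h) | h) | h) | h))
      · exact hcv h
      · exact huc h.symm
      all_goals exact h.1 rfl
    have h1 := card_le_univ (insert c (insert v (insert u (H ∪ A ∪ B ∪ L ∪ C))))
    rw [card_insert_of_notMem hc', card_insert_of_notMem hv', card_insert_of_notMem hu',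
      card_union_of_disjoint hHABLC, card_union_of_disjoint hHABL,
      card_union_of_disjoint hHAB, card_union_of_disjoint hHA] at h1
    omega
  obtain ⟨y, S, σ, j, h1, huS, hyu, h2, h3, h4, h5⟩ := exists_start hcv huc huv huI hcase hH
  obtain ⟨y1, σ1, h6, h7, h8, h9⟩ := phase2' hd hH _ y S σ j h1 huS h2 h3 h4 rfl
  have h8' : ∀ x ∈ S ∪ H, (x = v ∨ HasChild c v π x) → y1 x ≤ Nat.fib (#H + 5) :=
    fun x hx hx' => (h8 x hx hx').trans (Nat.fib_mono (by omega))
  have h9' : σ1 ≤ Nat.fib (#H + 6) := h9.trans (Nat.fib_mono (by omega))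
  obtain ⟨y2, σ2, h10, h11, h12⟩ := h6.growAll A (Nat.fib (#H + 5)) y1 σ1 (by
    intro x hx
    obtain ⟨hxc, hxv, hxI, h13, h14, h15⟩ := (hA x).1 hx
    have h16 : HasChild c v π (π x) := ⟨x, hxc, hxv, rfl⟩
    have h17 : π x ∈ S ∪ H := mem_union_right _ ((hH _).2 ⟨h13, h14, h15, h16⟩)
    exact ⟨hxc, h17, h8' _ h17 (Or.inr h16)⟩)
  obtain ⟨y3, σ3, h20, h21, h22⟩ := h10.growAll B 1 y2 σ2 (by
    intro x hx
    obtain ⟨hxc, hxv, hxI, h13⟩ := (hB x).1 hx
    refine ⟨hxc, by rw [h13]; exact h10.hv, by rw [h13, h10.yv]⟩)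
  let X : Finset V := C \ (S ∪ H ∪ A ∪ B)
  have huS3 : u ∈ S ∪ H ∪ A ∪ B :=
    mem_union_left _ (mem_union_left _ (mem_union_left _ huS))
  have hy3u : y3 u = 3 := by
    rw [h21 u (mem_union_left _ (mem_union_left _ huS)), h11 u (mem_union_left _ huS), h7 u huS,
      hyu]
  have hXC : #X ≤ #C := card_le_card sdiff_subset
  have h23 : #(A \ (S ∪ H)) ≤ #A := card_le_card sdiff_subset
  have h24 : #(B \ (S ∪ H ∪ A)) ≤ #B := card_le_card sdiff_subset
  have h25 : Nat.fib (#H + 5) * #(A \ (S ∪ H)) ≤ Nat.fib (#H + 5) * #A :=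
    Nat.mul_le_mul_left _ h23
  refine ⟨#X, final' h20 huS3 hy3u (X := X) ?_ ?_ (by omega)⟩
  · intro x hx
    obtain ⟨h26, h27⟩ := mem_sdiff.1 hx
    have h28 := (hC x).1 h26
    exact ⟨h27, h28.1, h28.2.2.2⟩
  · intro x hxc
    by_cases h30 : x ∈ S ∪ H ∪ A ∪ B
    · exact Or.inl h30
    right
    by_cases h31 : π x = c
    · exact Or.inr h31
    left
    have h32 : x ∉ S ∧ x ∉ H ∧ x ∉ A ∧ x ∉ B := by
      simp only [mem_union, not_or] at h30
      exact ⟨h30.1.1.1, h30.1.1.2, h30.1.2, h30.2⟩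
    have hxv : x ≠ v := fun e => h32.1 (e ▸ h1.hv)
    have hxu : x ≠ u := fun e => h32.1 (e ▸ huS)
    have hxI : ¬ HasChild c v π x := fun hh => h32.2.1 ((hH x).2 ⟨hxc, hxv, hxu, hh⟩)
    have h33 : π x ≠ v := fun e => h32.2.2.2 ((hB x).2 ⟨hxc, hxv, hxI, e⟩)
    have h34 : π x = u := by
      by_contra e
      exact h32.2.2.1 ((hA x).2 ⟨hxc, hxv, hxI, h31, h33, e⟩)
    exact mem_sdiff.2 ⟨(hC x).2 ⟨hxc, hxv, hxI, h34⟩, h30⟩

end

/-- Super edge-magic labellings from labellings of rooted forests. -/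
theorem sem_of_labelling' {V : Type} [Fintype V] (G : SimpleGraph V) {c v : V} (hcv : c ≠ v)
    {π : V → V} {d : V → ℕ} (h1 : ∀ x, x ≠ c → x ≠ v → d (π x) < d x ∧ G.Adj x (π x))
    (h2 : ∀ a b, G.Adj a b → (a ≠ c ∧ a ≠ v ∧ b = π a) ∨ (b ≠ c ∧ b ≠ v ∧ a = π b))
    {t : ℕ} {y : V → ℕ} (hy : Injective y) (hle : ∀ x, y x ≤ Fintype.card V)
    (hs : ∀ x, x ≠ c → x ≠ v → t + 3 ≤ y x + y (π x) ∧ y x + y (π x) ≤ t + Fintype.card V)
    (hi : ∀ x x', x ≠ c → x ≠ v → x' ≠ c → x' ≠ v → y x + y (π x) = y x' + y (π x') → x = x') :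
    ∃ f : V → ℕ, Function.Injective f ∧
      (∀ v, 1 ≤ f v ∧ f v ≤ Fintype.card V + 1) ∧
      ∃ g : G.edgeSet → ℕ, Function.Injective g ∧
        (∀ e, Fintype.card V + 1 + 1 ≤ g e ∧
              g e ≤ Fintype.card V + 1 + Nat.card G.edgeSet) ∧
        ∃ k : ℕ, ∀ (e : G.edgeSet) (u v : V), e.val = s(u, v) → f u + f v + g e = k := by
  classical
  set n := Fintype.card V with hn
  have hedge : ∀ e ∈ G.edgeSet, ∃ x, x ≠ c ∧ x ≠ v ∧ e = s(x, π x) := by
    intro e
    induction e using Sym2.ind with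
    | _ a b =>
      intro hab
      rcases h2 a b hab with ⟨h3, h4, h5⟩ | ⟨h3, h4, h5⟩
      · exact ⟨a, h3, h4, by rw [h5]⟩
      · exact ⟨b, h3, h4, by rw [h5]; exact Sym2.eq_swap⟩
  have hcard : n ≤ Nat.card G.edgeSet + 2 := by
    let S : Finset V := (univ.erase c).erase v
    have hS : #S = n - 2 := by
      rw [card_erase_of_mem (mem_erase.2 ⟨hcv.symm, mem_univ _⟩), card_erase_of_mem (mem_univ _),
        card_univ]
      rfl
    have hSm : ∀ x ∈ S, x ≠ c ∧ x ≠ v := fun x hx =>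
      ⟨ne_of_mem_erase (mem_of_mem_erase hx), ne_of_mem_erase hx⟩
    let F : S → G.edgeSet := fun x => ⟨s(x.1, π x.1), (h1 x.1 (hSm x.1 x.2).1 (hSm x.1 x.2).2).2⟩
    have hF : Injective F := by
      intro x x' hh
      have h3 : s(x.1, π x.1) = s(x'.1, π x'.1) := congrArg Subtype.val hh
      have h4 := congrArg (esum y) h3
      rw [esum_mk, esum_mk] at h4
      exact Subtype.ext (hi _ _ (hSm x.1 x.2).1 (hSm x.1 x.2).2 (hSm x'.1 x'.2).1
        (hSm x'.1 x'.2).2 h4)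
    have h3 := Nat.card_le_card_of_injective F hF
    have h4 : Nat.card S = #S := by rw [Nat.card_eq_fintype_card, Fintype.card_coe]
    omega
  refine ⟨fun x => n + 1 - y x, ?_, ?_, fun e => esum y e.1 + n - (t + 1), ?_, ?_,
    2 * (n + 1) + n - (t + 1), ?_⟩
  · intro x x' hh
    have h3 := hle x
    have h4 := hle x'
    change n + 1 - y x = n + 1 - y x' at hh
    exact hy (by omega)
  · intro x
    have h3 := hle x
    change 1 ≤ n + 1 - y x ∧ n + 1 - y x ≤ n + 1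
    omega
  · rintro ⟨e, he⟩ ⟨e', he'⟩ hh
    obtain ⟨x, hxc, hxv, rfl⟩ := hedge e he
    obtain ⟨x', hxc', hxv', rfl⟩ := hedge e' he'
    change esum y s(x, π x) + n - (t + 1) = esum y s(x', π x') + n - (t + 1) at hh
    rw [esum_mk, esum_mk] at hh
    have h3 := hs x hxc hxv
    have h4 := hs x' hxc' hxv'
    have := hi x x' hxc hxv hxc' hxv' (by omega)
    subst this
    rfl
  · rintro ⟨e, he⟩
    obtain ⟨x, hxc, hxv, rfl⟩ := hedge e he
    change n + 1 + 1 ≤ esum y s(x, π x) + n - (t + 1) ∧ esum y s(x, π x) + n - (t + 1) ≤ _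
    rw [esum_mk]
    have h3 := hs x hxc hxv
    omega
  · rintro ⟨e, he⟩ a b (rfl : e = s(a, b))
    change n + 1 - y a + (n + 1 - y b) + (esum y s(a, b) + n - (t + 1)) =
      2 * (n + 1) + n - (t + 1)
    obtain ⟨x, hxc, hxv, hx⟩ := hedge _ he
    have h6 := congrArg (esum y) hx
    rw [esum_mk, esum_mk] at h6
    rw [esum_mk]
    have h3 := hle a
    have h4 := hle b
    have h5 := hs x hxc hxv
    omega

end Pool.Agent.Helper1.SEM
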