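import Pool.Agent.Helper1.SEM.Grow

set_option autoImplicit false
set_option linter.unusedSectionVars false

/-!
# Labellings of rooted forests with a dominating star (MP_6afe48_co)
-/

namespace Pool.Agent.Helper1.SEM

open Finset Function

variable {V : Type} [Fintype V] [DecidableEq V]
  {c v : V} {π : V → V} {d : V → ℕ} {H A B : Finset V}

/-- All vertices which are not leaves. -/
theorem phase2 (hd : ∀ x, x ≠ c → x ≠ v → d (π x) < d x)
    (hH : ∀ x, x ∈ H ↔ x ≠ c ∧ x ≠ v ∧ HasChild c v π x) :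
    ∀ (n : ℕ) (y : V → ℕ) (S : Finset V) (σ j : ℕ), Good c v π y S σ →
      (∀ x ∈ H, π x = c → x ∈ S) →
      (∀ x ∈ S, (x = v ∨ HasChild c v π x) → y x ≤ Nat.fib j) → σ ≤ Nat.fib (j + 1) →
      #(H \ S) = n → ∃ (y' : V → ℕ) (S' : Finset V) (σ' : ℕ), Good c v π y' S' σ' ∧ H ⊆ S' ∧
        (∀ x ∈ S', (x = v ∨ HasChild c v π x) → y' x ≤ Nat.fib (j + n)) ∧
        σ' ≤ Nat.fib (j + n + 1) := by
  intro n
  induction n with
  | zero =>
    intro y S σ j h _ hM hσ hn
    exact ⟨y, S, σ, h, sdiff_eq_empty_iff_subset.1 (card_eq_zero.1 hn), hM, hσ⟩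
  | succ n ih =>
    intro y S σ j h hU hM hσ hn
    have hne : (H \ S).Nonempty := card_pos.1 (by omega)
    obtain ⟨x, hx, hmin⟩ := exists_min_image (H \ S) d hne
    obtain ⟨hxH, hxS⟩ := mem_sdiff.1 hx
    obtain ⟨hxc, hxv, hxI⟩ := (hH x).1 hxH
    have hπc : π x ≠ c := fun e => hxS (hU x hxH e)
    have hπS : π x ∈ S := by
      by_cases e : π x = v
      · rw [e]; exact h.hv
      · by_contra hcon
        have h1 : π x ∈ H := (hH _).2 ⟨hπc, e, x, hxc, hxv, rfl⟩
        have := hmin _ (mem_sdiff.2 ⟨h1, hcon⟩)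
        have := hd x hxc hxv
        omega
    have hg := h.grow hxS hxc hπS
    have hup : ∀ z ∈ S, update y x σ z = y z := fun z hz =>
      update_of_ne (fun e : z = x => hxS (e ▸ hz)) _ _
    have hM' : y (π x) ≤ Nat.fib j := hM _ hπS (Or.inr ⟨x, hxc, hxv, rfl⟩)
    have hf : Nat.fib (j + 2) = Nat.fib j + Nat.fib (j + 1) := Nat.fib_add_two
    obtain ⟨y', S', σ', h1, h2, h3, h4⟩ := ih (update y x σ) (insert x S) (σ + y (π x)) (j + 1) hg
      (fun z hz e => mem_insert_of_mem (hU z hz e)) (by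
        intro z hz hz'
        rcases mem_insert.1 hz with rfl | hz
        · rw [update_self]
          exact hσ
        · rw [hup z hz]
          exact (hM z hz hz').trans (Nat.fib_mono (by omega))) (by
        rw [show j + 1 + 1 = j + 2 by ring, hf]; omega) (by
        have : H \ insert x S = (H \ S).erase x := by
          ext z; simp only [mem_sdiff, mem_insert, mem_erase]; tauto
        rw [this, card_erase_of_mem hx, hn]; rfl)
    refine ⟨y', S', σ', h1, h2, ?_, ?_⟩
    · intro z hz hz'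
      have := h3 z hz hz'
      rwa [show j + 1 + n = j + (n + 1) by ring] at this
    · rwa [show j + 1 + n + 1 = j + (n + 1) + 1 by ring] at h4

/-- All leaves, except for those at `c`. -/
theorem phase3 (hH : ∀ x, x ∈ H ↔ x ≠ c ∧ x ≠ v ∧ HasChild c v π x)
    (hA : ∀ x, x ∈ A ↔ x ≠ c ∧ x ≠ v ∧ ¬ HasChild c v π x ∧ π x ≠ c ∧ π x ≠ v)
    (hB : ∀ x, x ∈ B ↔ x ≠ c ∧ x ≠ v ∧ ¬ HasChild c v π x ∧ π x = v) (hcv : c ≠ v) (K : ℕ) :
    ∀ (n : ℕ) (y : V → ℕ) (S : Finset V) (σ : ℕ), Good c v π y S σ → H ⊆ S →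
      (∀ x ∈ S, (x = v ∨ HasChild c v π x) → y x ≤ K) → #(A \ S) + #(B \ S) = n →
      ∃ (y' : V → ℕ) (S' : Finset V) (σ' : ℕ), Good c v π y' S' σ' ∧
        (∀ x, x ≠ c → x ∈ S' ∨ (x ≠ v ∧ π x = c ∧ ¬ HasChild c v π x)) ∧
        σ' ≤ σ + K * #(A \ S) + #(B \ S) := by
  intro n
  induction n with
  | zero =>
    intro y S σ h hHS hM hn
    have h1 : A \ S = ∅ := card_eq_zero.1 (by omega)
    have h2 : B \ S = ∅ := card_eq_zero.1 (by omega)
    rw [sdiff_eq_empty_iff_subset] at h1 h2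
    refine ⟨y, S, σ, h, fun x hxc => ?_, by omega⟩
    by_cases hxv : x = v
    · left; rw [hxv]; exact h.hv
    by_cases hI : HasChild c v π x
    · left; exact hHS ((hH x).2 ⟨hxc, hxv, hI⟩)
    by_cases h3 : π x = c
    · right; exact ⟨hxv, h3, hI⟩
    by_cases h4 : π x = v
    · left; exact h2 ((hB x).2 ⟨hxc, hxv, hI, h4⟩)
    · left; exact h1 ((hA x).2 ⟨hxc, hxv, hI, h3, h4⟩)
  | succ n ih =>
    intro y S σ h hHS hM hn
    by_cases hAS : (A \ S).Nonempty
    · obtain ⟨x, hx⟩ := hAS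
      obtain ⟨hxA, hxS⟩ := mem_sdiff.1 hx
      obtain ⟨hxc, hxv, hxI, hπc, hπv⟩ := (hA x).1 hxA
      have hI : HasChild c v π (π x) := ⟨x, hxc, hxv, rfl⟩
      have hπS : π x ∈ S := hHS ((hH _).2 ⟨hπc, hπv, hI⟩)
      have hup : ∀ z ∈ S, update y x σ z = y z := fun z hz =>
        update_of_ne (fun e : z = x => hxS (e ▸ hz)) _ _
      have e1 : A \ insert x S = (A \ S).erase x := by
        ext z; simp only [mem_sdiff, mem_insert, mem_erase]; tauto
      have e2 : B \ insert x S = B \ S := by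
        ext z
        simp only [mem_sdiff, mem_insert]
        constructor
        · rintro ⟨a, b⟩; exact ⟨a, fun hz => b (Or.inr hz)⟩
        · rintro ⟨a, b⟩
          refine ⟨a, fun hz => ?_⟩
          rcases hz with rfl | hz
          · exact hπv ((hB _).1 a).2.2.2
          · exact b hz
      have hc1 : #(A \ insert x S) = #(A \ S) - 1 := by rw [e1, card_erase_of_mem hx]
      have hpos : 1 ≤ #(A \ S) := card_pos.2 ⟨x, hx⟩
      have hM1 := hM _ hπS (Or.inr hI)
      obtain ⟨y', S', σ', h1, h2, h3⟩ := ih _ _ _ (h.grow hxS hxc hπS)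
        (hHS.trans (subset_insert _ _)) (by
          intro z hz hz'
          rcases mem_insert.1 hz with rfl | hz
          · rcases hz' with rfl | hz'
            · exact absurd rfl hxv
            · exact absurd hz' hxI
          · rw [hup z hz]; exact hM z hz hz') (by rw [hc1, e2]; omega)
      refine ⟨y', S', σ', h1, h2, h3.trans ?_⟩
      rw [hc1, e2]
      obtain ⟨q, hq⟩ : ∃ q, #(A \ S) = q + 1 := ⟨#(A \ S) - 1, by omega⟩
      rw [hq, Nat.add_sub_cancel, mul_add, mul_one]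
      omega
    · have hA0 : #(A \ S) = 0 := by
        rw [not_nonempty_iff_eq_empty] at hAS; rw [hAS, card_empty]
      have hBS : (B \ S).Nonempty := card_pos.1 (by omega)
      obtain ⟨x, hx⟩ := hBS
      obtain ⟨hxB, hxS⟩ := mem_sdiff.1 hx
      obtain ⟨hxc, hxv, hxI, hπv⟩ := (hB x).1 hxB
      have hπS : π x ∈ S := hπv ▸ h.hv
      have hup : ∀ z ∈ S, update y x σ z = y z := fun z hz =>
        update_of_ne (fun e : z = x => hxS (e ▸ hz)) _ _
      have e1 : B \ insert x S = (B \ S).erase x := by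
        ext z; simp only [mem_sdiff, mem_insert, mem_erase]; tauto
      have e2 : #(A \ insert x S) = 0 := by
        have : A \ insert x S ⊆ A \ S := sdiff_subset_sdiff (Subset.refl _) (subset_insert _ _)
        have := card_le_card this
        omega
      have hc1 : #(B \ insert x S) = #(B \ S) - 1 := by rw [e1, card_erase_of_mem hx]
      have hpos : 1 ≤ #(B \ S) := card_pos.2 ⟨x, hx⟩
      obtain ⟨y', S', σ', h1, h2, h3⟩ := ih _ _ _ (h.grow hxS hxc hπS)
        (hHS.trans (subset_insert _ _)) (by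
          intro z hz hz'
          rcases mem_insert.1 hz with rfl | hz
          · rcases hz' with rfl | hz'
            · exact absurd rfl hxv
            · exact absurd hz' hxI
          · rw [hup z hz]; exact hM z hz hz') (by rw [hc1, e2]; omega)
      refine ⟨y', S', σ', h1, h2, h3.trans ?_⟩
      rw [hc1, e2, hA0, hπv, h.yv]
      omega

/-- The leaves at `c`. -/
theorem final {y : V → ℕ} {S : Finset V} {σ : ℕ} (h : Good c v π y S σ)
    (hS : ∀ x, x ≠ c → x ∈ S ∨ (x ≠ v ∧ π x = c ∧ ¬ HasChild c v π x))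
    (hσ : σ ≤ Fintype.card V) :
    ∃ y' : V → ℕ, Injective y' ∧ (∀ x, y' x ≤ Fintype.card V) ∧
      (∀ x, x ≠ c → x ≠ v → 3 ≤ y' x + y' (π x) ∧ y' x + y' (π x) ≤ Fintype.card V) ∧
      ∀ x x', x ≠ c → x ≠ v → x' ≠ c → x' ≠ v → y' x + y' (π x) = y' x' + y' (π x') → x = x' := by
  classical
  have hσS : σ ∉ S.image y := by
    intro hh
    obtain ⟨x, hx, e⟩ := mem_image.1 hh
    have := h.lt x hx; omega
  have hci : #(S.image y) = #S := card_image_of_injOn (fun x hx x' hx' e => h.inj x hx x' hx' e)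
  let T : Finset ℕ := Icc 1 (Fintype.card V) \ insert σ (S.image y)
  let L : Finset V := univ \ insert c S
  have hσ1 : 1 ≤ σ := by have := h.lt v h.hv; omega
  have hsub : insert σ (S.image y) ⊆ Icc 1 (Fintype.card V) := by
    intro t ht
    rw [mem_Icc]
    rcases mem_insert.1 ht with rfl | ht
    · exact ⟨hσ1, hσ⟩
    · obtain ⟨x, hx, rfl⟩ := mem_image.1 ht
      exact ⟨h.pos x hx, ((h.lt x hx).le).trans hσ⟩
  have hT : #T = Fintype.card V - (#S + 1) := by
    rw [card_sdiff_of_subset hsub, Nat.card_Icc, card_insert_of_notMem hσS, hci]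
    rfl
  have hL : #L = Fintype.card V - (#S + 1) := by
    rw [card_sdiff_of_subset (subset_univ _), card_univ, card_insert_of_notMem h.hc]
  let e : L ≃ T := equivOfCardEq (hL.trans hT.symm)
  have hTm : ∀ t ∈ T, 3 ≤ t ∧ t ≤ Fintype.card V ∧ t ≠ σ ∧ ∀ x ∈ S, y x ≠ t := by
    intro t ht
    obtain ⟨h1, h2⟩ := mem_sdiff.1 ht
    rw [mem_Icc] at h1
    rw [mem_insert, not_or] at h2
    have h3 : ∀ x ∈ S, y x ≠ t := fun x hx e => h2.2 (mem_image.2 ⟨x, hx, e⟩)
    refine ⟨?_, h1.2, h2.1, h3⟩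
    have h4 := h3 v h.hv
    rw [h.yv] at h4
    have h5 : t ≠ 2 := by
      rcases h.two with ⟨x, hx, hx2⟩ | h5
      · exact fun e => h3 x hx (hx2.trans e.symm)
      · exact fun e => h2.1 (e.trans h5.symm)
    omega
  let y' : V → ℕ := fun x => if hx : x ∈ L then (e ⟨x, hx⟩ : ℕ) else y x
  have hyL : ∀ x (hx : x ∈ L), y' x = (e ⟨x, hx⟩ : ℕ) := fun x hx => dif_pos hx
  have hyS : ∀ x ∈ S, y' x = y x := fun x hx =>
    dif_neg (fun hh => (mem_sdiff.1 hh).2 (mem_insert_of_mem hx))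
  have hyc : y' c = 0 := (dif_neg (fun hh => (mem_sdiff.1 hh).2 (mem_insert_self _ _))).trans h.yc
  have hyLT : ∀ x ∈ L, y' x ∈ T := fun x hx => by rw [hyL x hx]; exact (e ⟨x, hx⟩).2
  have hcases : ∀ x, x = c ∨ x ∈ S ∨ x ∈ L := by
    intro x
    by_cases h1 : x = c
    · exact Or.inl h1
    by_cases h2 : x ∈ S
    · exact Or.inr (Or.inl h2)
    · right; right
      exact mem_sdiff.2 ⟨mem_univ _, by rw [mem_insert, not_or]; exact ⟨h1, h2⟩⟩
  have hLc : ∀ x ∈ L, π x = c := by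
    intro x hx
    have h1 := (mem_sdiff.1 hx).2
    rw [mem_insert, not_or] at h1
    rcases hS x h1.1 with h2 | h2
    · exact absurd h2 h1.2
    · exact h2.2.1
  have hsS : ∀ x ∈ S, x ≠ v → y' x + y' (π x) = y x + y (π x) := by
    intro x hx hxv
    rw [hyS x hx]
    rcases h.down x hx hxv with h1 | h1
    · rw [h1, hyc, h.yc]
    · rw [hyS _ h1]
  have hsL : ∀ x ∈ L, y' x + y' (π x) = y' x := fun x hx => by rw [hLc x hx, hyc]; rfl
  have hSL : ∀ x ∈ S, x ≠ v → ∀ x' ∈ L, y' x + y' (π x) ≠ y' x' + y' (π x') := by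
    intro x hx hxv x' hx' hh
    rw [hsS x hx hxv, hsL x' hx'] at hh
    obtain ⟨-, -, h3, h4⟩ := hTm _ (hyLT x' hx')
    rcases h.sumT x hx hxv with h5 | ⟨z, hz, h5⟩
    · exact h3 (hh.symm.trans h5)
    · exact h4 z hz (h5.trans hh)
  refine ⟨y', ?_, ?_, ?_, ?_⟩
  · intro x x' hh
    rcases hcases x with rfl | hx | hx
    · rcases hcases x' with rfl | hx' | hx'
      · rfl
      · rw [hyc, hyS x' hx'] at hh; have := h.pos x' hx'; omega
      · rw [hyc] at hh; have := (hTm _ (hyLT x' hx')).1; omega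
    · rcases hcases x' with rfl | hx' | hx'
      · rw [hyc, hyS x hx] at hh; have := h.pos x hx; omega
      · rw [hyS x hx, hyS x' hx'] at hh; exact h.inj x hx x' hx' hh
      · rw [hyS x hx] at hh
        exact absurd hh ((hTm _ (hyLT x' hx')).2.2.2 x hx)
    · rcases hcases x' with rfl | hx' | hx'
      · rw [hyc] at hh; have := (hTm _ (hyLT x hx)).1; omega
      · rw [hyS x' hx'] at hh
        exact absurd hh.symm ((hTm _ (hyLT x hx)).2.2.2 x' hx')
      · rw [hyL x hx, hyL x' hx'] at hh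
        exact congrArg Subtype.val (e.injective (Subtype.ext hh))
  · intro x
    rcases hcases x with rfl | hx | hx
    · rw [hyc]; exact Nat.zero_le _
    · rw [hyS x hx]; exact (h.lt x hx).le.trans hσ
    · exact (hTm _ (hyLT x hx)).2.1
  · intro x hxc hxv
    rcases hcases x with h1 | hx | hx
    · exact absurd h1 hxc
    · rw [hsS x hx hxv]
      exact ⟨h.sum3 x hx hxv, (h.sum_le hx hxv).trans hσ⟩
    · rw [hsL x hx]
      exact ⟨(hTm _ (hyLT x hx)).1, (hTm _ (hyLT x hx)).2.1⟩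
  · intro x x' hxc hxv hxc' hxv' hh
    rcases hcases x with h1 | hx | hx
    · exact absurd h1 hxc
    · rcases hcases x' with h1 | hx' | hx'
      · exact absurd h1 hxc'
      · rw [hsS x hx hxv, hsS x' hx' hxv'] at hh
        exact h.sinj x hx hxv x' hx' hxv' hh
      · exact absurd hh (hSL x hx hxv x' hx')
    · rcases hcases x' with h1 | hx' | hx'
      · exact absurd h1 hxc'
      · exact absurd hh.symm (hSL x' hx' hxv' x hx)
      · rw [hsL x hx, hsL x' hx', hyL x hx, hyL x' hx'] at hh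
        exact congrArg Subtype.val (e.injective (Subtype.ext hh))

/-- The labelling of a rooted forest. -/
theorem exists_labelling (hcv : c ≠ v) (hd : ∀ x, x ≠ c → x ≠ v → d (π x) < d x)
    (hH : ∀ x, x ∈ H ↔ x ≠ c ∧ x ≠ v ∧ HasChild c v π x)
    (hA : ∀ x, x ∈ A ↔ x ≠ c ∧ x ≠ v ∧ ¬ HasChild c v π x ∧ π x ≠ c ∧ π x ≠ v)
    {L : Finset V} (hL : ∀ x, x ∈ L ↔ x ≠ c ∧ x ≠ v ∧ ¬ HasChild c v π x ∧ π x = c)
    {s : ℕ} (hs : 3 ≤ s ∨ (s = 2 ∧ ∀ x ∈ H, π x ≠ c))
    (hm : Nat.fib (#H + s + 1) + Nat.fib (#H + s) * #A ≤ #L + #H + #A + 2) :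
    ∃ y' : V → ℕ, Injective y' ∧ (∀ x, y' x ≤ Fintype.card V) ∧
      (∀ x, x ≠ c → x ≠ v → 3 ≤ y' x + y' (π x) ∧ y' x + y' (π x) ≤ Fintype.card V) ∧
      ∀ x x', x ≠ c → x ≠ v → x' ≠ c → x' ≠ v → y' x + y' (π x) = y' x' + y' (π x') → x = x' := by
  classical
  let B : Finset V := univ.filter (fun x => x ≠ c ∧ x ≠ v ∧ ¬ HasChild c v π x ∧ π x = v)
  have hB : ∀ x, x ∈ B ↔ x ≠ c ∧ x ≠ v ∧ ¬ HasChild c v π x ∧ π x = v := fun x => by
    simp only [B, mem_filter, mem_univ, true_and]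
  -- the number of vertices
  have hcard : Fintype.card V = #H + #A + #B + #L + 2 := by
    have hHA : Disjoint H A := by
      rw [disjoint_left]; intro x h1 h2
      exact ((hA x).1 h2).2.2.1 ((hH x).1 h1).2.2
    have hHAB : Disjoint (H ∪ A) B := by
      rw [disjoint_left]; intro x h1 h2
      rcases mem_union.1 h1 with h1 | h1
      · exact ((hB x).1 h2).2.2.1 ((hH x).1 h1).2.2
      · exact ((hA x).1 h1).2.2.2.2 ((hB x).1 h2).2.2.2
    have hHABL : Disjoint (H ∪ A ∪ B) L := by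
      rw [disjoint_left]; intro x h1 h2
      rcases mem_union.1 h1 with h1 | h1
      · rcases mem_union.1 h1 with h1 | h1
        · exact ((hL x).1 h2).2.2.1 ((hH x).1 h1).2.2
        · exact ((hA x).1 h1).2.2.2.1 ((hL x).1 h2).2.2.2
      · exact hcv (((hL x).1 h2).2.2.2.symm.trans ((hB x).1 h1).2.2.2)
    have hU : univ = insert c (insert v (H ∪ A ∪ B ∪ L)) := by
      refine (eq_univ_iff_forall.2 fun x => ?_).symm
      simp only [mem_insert, mem_union]
      by_cases h1 : x = c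
      · exact Or.inl h1
      by_cases h2 : x = v
      · exact Or.inr (Or.inl h2)
      right; right
      by_cases h3 : HasChild c v π x
      · exact Or.inl (Or.inl (Or.inl ((hH x).2 ⟨h1, h2, h3⟩)))
      by_cases h4 : π x = c
      · exact Or.inr ((hL x).2 ⟨h1, h2, h3, h4⟩)
      by_cases h5 : π x = v
      · exact Or.inl (Or.inr ((hB x).2 ⟨h1, h2, h3, h5⟩))
      · exact Or.inl (Or.inl (Or.inr ((hA x).2 ⟨h1, h2, h3, h4, h5⟩)))
    have hv' : v ∉ H ∪ A ∪ B ∪ L := by
      simp only [mem_union, hH, hA, hB, hL]; tauto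
    have hc' : c ∉ insert v (H ∪ A ∪ B ∪ L) := by
      simp only [mem_insert, mem_union, hH, hA, hB, hL]; tauto
    rw [← card_univ, hU, card_insert_of_notMem hc', card_insert_of_notMem hv',
      card_union_of_disjoint hHABL, card_union_of_disjoint hHAB, card_union_of_disjoint hHA]
  -- the start
  have hstart : ∃ (y : V → ℕ) (S : Finset V) (σ j : ℕ), Good c v π y S σ ∧
      (∀ x ∈ H, π x = c → x ∈ S) ∧
      (∀ x ∈ S, (x = v ∨ HasChild c v π x) → y x ≤ Nat.fib j) ∧ σ ≤ Nat.fib (j + 1) ∧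
      j + #(H \ S) ≤ #H + s := by
    let U : Finset V := H.filter (fun x => π x = c)
    have hU : ∀ x ∈ U, x ≠ c ∧ x ≠ v ∧ π x = c ∧ HasChild c v π x := by
      intro x hx
      obtain ⟨h1, h2⟩ := mem_filter.1 hx
      obtain ⟨h3, h4, h5⟩ := (hH x).1 h1
      exact ⟨h3, h4, h2, h5⟩
    rcases U.eq_empty_or_nonempty with h0 | ⟨u, hu⟩
    · refine ⟨_, _, _, 2, good_start hcv π, ?_, ?_, ?_, ?_⟩
      · intro x hx hxc
        have : x ∈ U := mem_filter.2 ⟨hx, hxc⟩
        rw [h0] at this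
        exact absurd this (notMem_empty _)
      · intro x hx _
        rw [mem_singleton.1 hx, update_self]
        decide
      · decide
      · have := card_le_card (sdiff_subset : H \ {v} ⊆ H)
        rcases hs with hs | ⟨hs, -⟩ <;> omega
    · obtain ⟨w, hwc, hwv, hw⟩ := (hU u hu).2.2.2
      obtain ⟨y, hy, hy2⟩ := good_start' hcv hU hu hwc hwv hw
      have hUc : 1 ≤ #U := card_pos.2 ⟨u, hu⟩
      have hfib : ∀ a : ℕ, 1 ≤ a → a + 2 ≤ Nat.fib (a + 3) ∧ a + 4 ≤ Nat.fib (a + 4) := by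
        intro a ha
        induction a, ha using Nat.le_induction with
        | base => decide
        | succ a ha ih =>
          have h1 : Nat.fib (a + 5) = Nat.fib (a + 3) + Nat.fib (a + 4) := Nat.fib_add_two
          have h2 : 1 ≤ Nat.fib (a + 3) := Nat.fib_pos.2 (by omega)
          refine ⟨?_, ?_⟩
          · rw [show a + 1 + 3 = a + 4 by ring]; omega
          · rw [show a + 1 + 4 = a + 5 by ring]; omega
      have hs3 : 3 ≤ s := hs.resolve_right fun hs => hs.2 u (mem_filter.1 hu).1 (mem_filter.1 hu).2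
      refine ⟨y, _, _, #U + 3, hy, ?_, ?_, ?_, ?_⟩
      · intro x hx hxc
        exact mem_insert_of_mem (mem_insert_of_mem (mem_filter.2 ⟨hx, hxc⟩))
      · intro x hx _
        exact (hy2 x hx).trans (hfib _ hUc).1
      · exact (hfib _ hUc).2
      · have h1 : H \ insert v (insert w U) ⊆ H \ U := fun x hx => by
          simp only [mem_sdiff, mem_insert, not_or] at hx ⊢
          exact ⟨hx.1, hx.2.2.2⟩
        have h2 := card_le_card h1
        have h3 : #(H \ U) = #H - #U := card_sdiff_of_subset (filter_subset _ _)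
        have h4 := card_le_card (filter_subset (fun x => π x = c) H)
        change #U ≤ #H at h4
        omega
  obtain ⟨y, S, σ, j, h1, h2, h3, h4, h5⟩ := hstart
  obtain ⟨y1, S1, σ1, h6, h7, h8, h9⟩ := phase2 hd hH _ y S σ j h1 h2 h3 h4 rfl
  have h8' : ∀ x ∈ S1, (x = v ∨ HasChild c v π x) → y1 x ≤ Nat.fib (#H + s) := fun x hx hx' =>
    (h8 x hx hx').trans (Nat.fib_mono (by omega))
  have h9' : σ1 ≤ Nat.fib (#H + s + 1) := h9.trans (Nat.fib_mono (by omega))
  obtain ⟨y2, S2, σ2, h10, h11, h12⟩ := phase3 hH hA hB hcv _ _ y1 S1 σ1 h6 h7 h8' rfl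
  refine final h10 h11 (h12.trans ?_)
  have h13 := card_le_card (sdiff_subset : A \ S1 ⊆ A)
  have h14 := card_le_card (sdiff_subset : B \ S1 ⊆ B)
  have h15 : Nat.fib (#H + s) * #(A \ S1) ≤ Nat.fib (#H + s) * #A := Nat.mul_le_mul_left _ h13
  omega

end Pool.Agent.Helper1.SEM
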