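import Pool.Agent.Helper1.SEM.Grow2

set_option autoImplicit false
set_option linter.unusedSectionVars false

/-!
# Labellings of rooted forests with three large stars (MP_6afe48_co)
-/

namespace Pool.Agent.Helper1.SEM

open Finset Function

variable {V : Type} [Fintype V] [DecidableEq V]
  {c v u : V} {π : V → V} {d : V → ℕ} {H A : Finset V}

/-- All vertices which are not leaves. -/
theorem phase2' (hd : ∀ x, x ≠ c → x ≠ v → d (π x) < d x)
    (hH : ∀ x, x ∈ H ↔ x ≠ c ∧ x ≠ v ∧ x ≠ u ∧ HasChild c v π x) :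
    ∀ (n : ℕ) (y : V → ℕ) (S : Finset V) (σ j : ℕ), Good c v π y S σ → u ∈ S →
      (∀ x ∈ H, π x = c → x ∈ S) →
      (∀ x ∈ S, (x = v ∨ HasChild c v π x) → y x ≤ Nat.fib j) → σ ≤ Nat.fib (j + 1) →
      #(H \ S) = n → ∃ (y' : V → ℕ) (σ' : ℕ), Good c v π y' (S ∪ H) σ' ∧ (∀ x ∈ S, y' x = y x) ∧
        (∀ x ∈ S ∪ H, (x = v ∨ HasChild c v π x) → y' x ≤ Nat.fib (j + n)) ∧
        σ' ≤ Nat.fib (j + n + 1) := by
  intro n
  induction n with
  | zero =>
    intro y S σ j h _ _ hM hσ hn
    have h1 : S ∪ H = S := union_eq_left.2 (sdiff_eq_empty_iff_subset.1 (card_eq_zero.1 hn))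
    exact ⟨y, σ, by rwa [h1], fun _ _ => rfl, by rwa [h1], hσ⟩
  | succ n ih =>
    intro y S σ j h huS hU hM hσ hn
    have hne : (H \ S).Nonempty := card_pos.1 (by omega)
    obtain ⟨x, hx, hmin⟩ := exists_min_image (H \ S) d hne
    obtain ⟨hxH, hxS⟩ := mem_sdiff.1 hx
    obtain ⟨hxc, hxv, hxu, hxI⟩ := (hH x).1 hxH
    have hπc : π x ≠ c := fun e => hxS (hU x hxH e)
    have hπS : π x ∈ S := by
      by_cases e : π x = v
      · rw [e]; exact h.hv
      by_cases e' : π x = u
      · rw [e']; exact huS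
      · by_contra hcon
        have h1 : π x ∈ H := (hH _).2 ⟨hπc, e, e', x, hxc, hxv, rfl⟩
        have := hmin _ (mem_sdiff.2 ⟨h1, hcon⟩)
        have := hd x hxc hxv
        omega
    have hg := h.grow hxS hxc hπS
    have hup : ∀ z ∈ S, update y x σ z = y z := fun z hz =>
      update_of_ne (fun e : z = x => hxS (e ▸ hz)) _ _
    have hM' : y (π x) ≤ Nat.fib j := hM _ hπS (Or.inr ⟨x, hxc, hxv, rfl⟩)
    have hf : Nat.fib (j + 2) = Nat.fib j + Nat.fib (j + 1) := Nat.fib_add_two
    obtain ⟨y', σ', h1, h2, h3, h4⟩ := ih (update y x σ) (insert x S) (σ + y (π x)) (j + 1) hg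
      (mem_insert_of_mem huS) (fun z hz e => mem_insert_of_mem (hU z hz e)) (by
        intro z hz hz'
        rcases mem_insert.1 hz with rfl | hz
        · rw [update_self]
          exact hσ
        · rw [hup z hz]
          exact (hM z hz hz').trans (Nat.fib_mono (by omega))) (by
        rw [show j + 1 + 1 = j + 2 by ring, hf]; omega) (by
        have : H \ insert x S = (H \ S).erase x := by
          ext z; simp only [mem_sdiff, mem_insert, mem_erase]; tauto
        rw [this, card_erase_of_mem hx, hn]; rfl)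
    have e1 : insert x S ∪ H = S ∪ H := by
      ext z; simp only [mem_union, mem_insert]
      constructor
      · rintro ((rfl | hz) | hz)
        · exact Or.inr hxH
        · exact Or.inl hz
        · exact Or.inr hz
      · rintro (hz | hz)
        · exact Or.inl (Or.inr hz)
        · exact Or.inr hz
    rw [e1] at h1 h3
    refine ⟨y', σ', h1, fun z hz => ?_, ?_, ?_⟩
    · rw [h2 z (mem_insert_of_mem hz), hup z hz]
    · intro z hz hz'
      have := h3 z hz hz'
      rwa [show j + 1 + n = j + (n + 1) by ring] at this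
    · rwa [show j + 1 + n + 1 = j + (n + 1) + 1 by ring] at h4

/-- The leaves at `c` and the leaves at `u`. -/
theorem final' {y : V → ℕ} {S : Finset V} {σ : ℕ} (h : Good c v π y S σ) (hu : u ∈ S)
    (hyu : y u = 3) {X : Finset V}
    (hX : ∀ x ∈ X, x ∉ S ∧ x ≠ c ∧ π x = u)
    (hS : ∀ x, x ≠ c → x ∈ S ∨ x ∈ X ∨ π x = c)
    (hσ : σ + #X ≤ Fintype.card V) :
    ∃ y' : V → ℕ, Injective y' ∧ (∀ x, y' x ≤ Fintype.card V) ∧
      (∀ x, x ≠ c → x ≠ v → #X + 3 ≤ y' x + y' (π x) ∧
        y' x + y' (π x) ≤ #X + Fintype.card V) ∧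
      ∀ x x', x ≠ c → x ≠ v → x' ≠ c → x' ≠ v → y' x + y' (π x) = y' x' + y' (π x') → x = x' := by
  classical
  set t := #X with ht
  set n := Fintype.card V with hn
  have hσS : σ ∉ S.image y := by
    intro hh
    obtain ⟨x, hx, e⟩ := mem_image.1 hh
    have := h.lt x hx; omega
  have hci : #(S.image y) = #S := card_image_of_injOn (fun x hx x' hx' e => h.inj x hx x' hx' e)
  have hcX : c ∉ X := fun hh => (hX c hh).2.1 rfl
  have hdis : Disjoint X (insert c S) := by
    rw [disjoint_left]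
    intro x hx hx'
    rcases mem_insert.1 hx' with e | e
    · exact (hX x hx).2.1 e
    · exact (hX x hx).1 e
  let T : Finset ℕ := Icc 1 (n - t) \ insert σ (S.image y)
  let L : Finset V := univ \ (X ∪ insert c S)
  have hσ1 : 1 ≤ σ := by have := h.lt v h.hv; omega
  have hsub : insert σ (S.image y) ⊆ Icc 1 (n - t) := by
    intro a ha
    rw [mem_Icc]
    rcases mem_insert.1 ha with rfl | ha
    · omega
    · obtain ⟨x, hx, rfl⟩ := mem_image.1 ha
      have := h.pos x hx
      have := h.lt x hx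
      omega
  have hT : #T = n - t - (#S + 1) := by
    rw [card_sdiff_of_subset hsub, Nat.card_Icc, card_insert_of_notMem hσS, hci]
    rfl
  have hL : #L = n - t - (#S + 1) := by
    rw [card_sdiff_of_subset (subset_univ _), card_univ, card_union_of_disjoint hdis,
      card_insert_of_notMem h.hc]
    omega
  let e : L ≃ T := equivOfCardEq (hL.trans hT.symm)
  let eX : X ≃ Fin t := X.equivFin
  have hTm : ∀ a ∈ T, 3 ≤ a ∧ a + t ≤ n ∧ a ≠ σ ∧ ∀ x ∈ S, y x ≠ a := by
    intro a ha
    obtain ⟨h1, h2⟩ := mem_sdiff.1 ha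
    rw [mem_Icc] at h1
    rw [mem_insert, not_or] at h2
    have h3 : ∀ x ∈ S, y x ≠ a := fun x hx e => h2.2 (mem_image.2 ⟨x, hx, e⟩)
    have h4 := h3 v h.hv
    rw [h.yv] at h4
    have h5 : a ≠ 2 := by
      rcases h.two with ⟨x, hx, hx2⟩ | h5
      · exact fun e => h3 x hx (hx2.trans e.symm)
      · exact fun e => h2.1 (e.trans h5.symm)
    exact ⟨by omega, by omega, h2.1, h3⟩
  let y' : V → ℕ := fun x => if hx : x ∈ X then (eX ⟨x, hx⟩ : ℕ) else
    if hx : x ∈ L then t + (e ⟨x, hx⟩ : ℕ) else t + y x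
  have hyX : ∀ x (hx : x ∈ X), y' x = (eX ⟨x, hx⟩ : ℕ) := fun x hx => dif_pos hx
  have hyXt : ∀ x ∈ X, y' x < t := fun x hx => by rw [hyX x hx]; exact (eX ⟨x, hx⟩).2
  have hLm : ∀ x ∈ L, x ∉ X ∧ x ≠ c ∧ x ∉ S := by
    intro x hx
    have h1 := (mem_sdiff.1 hx).2
    rw [mem_union, mem_insert, not_or, not_or] at h1
    exact h1
  have hyL : ∀ x (hx : x ∈ L), y' x = t + (e ⟨x, hx⟩ : ℕ) := fun x hx => by
    have h1 := (hLm x hx).1
    simp only [y']
    rw [dif_neg h1, dif_pos hx]
  have hyS : ∀ x ∈ S, y' x = t + y x := fun x hx => by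
    have h1 : x ∉ X := fun hh => (hX x hh).1 hx
    have h2 : x ∉ L := fun hh => (hLm x hh).2.2 hx
    simp only [y']
    rw [dif_neg h1, dif_neg h2]
  have hyc : y' c = t := by
    have h2 : c ∉ L := fun hh => (hLm c hh).2.1 rfl
    simp only [y']
    rw [dif_neg hcX, dif_neg h2, h.yc]
    rfl
  have hyLT : ∀ x ∈ L, ∃ a ∈ T, y' x = t + a := fun x hx =>
    ⟨_, (e ⟨x, hx⟩).2, hyL x hx⟩
  have hcases : ∀ x, x = c ∨ x ∈ S ∨ x ∈ L ∨ x ∈ X := by
    intro x
    by_cases h1 : x = c
    · exact Or.inl h1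
    by_cases h2 : x ∈ S
    · exact Or.inr (Or.inl h2)
    by_cases h3 : x ∈ X
    · exact Or.inr (Or.inr (Or.inr h3))
    · refine Or.inr (Or.inr (Or.inl (mem_sdiff.2 ⟨mem_univ _, ?_⟩)))
      rw [mem_union, mem_insert, not_or, not_or]
      exact ⟨h3, h1, h2⟩
  have hLc : ∀ x ∈ L, π x = c := by
    intro x hx
    obtain ⟨h1, h2, h3⟩ := hLm x hx
    rcases hS x h2 with h4 | h4 | h4
    · exact absurd h4 h3
    · exact absurd h4 h1
    · exact h4
  have hsS : ∀ x ∈ S, x ≠ v → y' x + y' (π x) = 2 * t + (y x + y (π x)) := by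
    intro x hx hxv
    rw [hyS x hx]
    rcases h.down x hx hxv with h1 | h1
    · rw [h1, hyc, h.yc]; omega
    · rw [hyS _ h1]; omega
  have hsL : ∀ x ∈ L, y' x + y' (π x) = y' x + t := fun x hx => by rw [hLc x hx, hyc]
  have hsX : ∀ x ∈ X, y' x + y' (π x) = y' x + t + 3 := fun x hx => by
    rw [(hX x hx).2.2, hyS u hu, hyu, add_assoc]
  have hSL : ∀ x ∈ S, x ≠ v → ∀ x' ∈ L, y' x + y' (π x) ≠ y' x' + y' (π x') := by
    intro x hx hxv x' hx' hh
    obtain ⟨a, ha, ha'⟩ := hyLT x' hx'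
    rw [hsS x hx hxv, hsL x' hx', ha'] at hh
    obtain ⟨-, -, h3, h4⟩ := hTm _ ha
    rcases h.sumT x hx hxv with h5 | ⟨z, hz, h5⟩
    · exact h3 (by omega)
    · exact h4 z hz (by omega)
  have hSX : ∀ x ∈ S, x ≠ v → ∀ x' ∈ X, y' x + y' (π x) ≠ y' x' + y' (π x') := by
    intro x hx hxv x' hx' hh
    rw [hsS x hx hxv, hsX x' hx'] at hh
    have := h.sum3 x hx hxv
    have := hyXt x' hx'
    omega
  have hLX : ∀ x ∈ L, ∀ x' ∈ X, y' x + y' (π x) ≠ y' x' + y' (π x') := by
    intro x hx x' hx' hh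
    obtain ⟨a, ha, ha'⟩ := hyLT x hx
    rw [hsL x hx, ha', hsX x' hx'] at hh
    have := (hTm _ ha).1
    have := hyXt x' hx'
    omega
  refine ⟨y', ?_, ?_, ?_, ?_⟩
  · intro x x' hh
    rcases hcases x with hx | hx | hx | hx
    · rcases hcases x' with hx' | hx' | hx' | hx'
      · rw [hx, hx']
      · rw [hx, hyc, hyS x' hx'] at hh; have := h.pos x' hx'; omega
      · obtain ⟨a, ha, ha'⟩ := hyLT x' hx'
        rw [hx, hyc, ha'] at hh; have := (hTm _ ha).1; omega
      · rw [hx, hyc] at hh; have := hyXt x' hx'; omega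
    · rcases hcases x' with hx' | hx' | hx' | hx'
      · rw [hx', hyc, hyS x hx] at hh; have := h.pos x hx; omega
      · rw [hyS x hx, hyS x' hx'] at hh; exact h.inj x hx x' hx' (by omega)
      · obtain ⟨a, ha, ha'⟩ := hyLT x' hx'
        rw [hyS x hx, ha'] at hh
        exact absurd (by omega) ((hTm _ ha).2.2.2 x hx)
      · rw [hyS x hx] at hh; have := hyXt x' hx'; omega
    · obtain ⟨a, ha, ha'⟩ := hyLT x hx
      rcases hcases x' with hx' | hx' | hx' | hx'
      · rw [hx', hyc, ha'] at hh; have := (hTm _ ha).1; omega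
      · rw [hyS x' hx', ha'] at hh
        exact absurd (by omega) ((hTm _ ha).2.2.2 x' hx')
      · rw [hyL x hx, hyL x' hx'] at hh
        have h9 : e ⟨x, hx⟩ = e ⟨x', hx'⟩ := Subtype.ext (by omega)
        exact congrArg Subtype.val (e.injective h9)
      · rw [ha'] at hh; have := hyXt x' hx'; omega
    · rcases hcases x' with hx' | hx' | hx' | hx'
      · rw [hx', hyc] at hh; have := hyXt x hx; omega
      · rw [hyS x' hx'] at hh; have := hyXt x hx; omega
      · obtain ⟨a, ha, ha'⟩ := hyLT x' hx'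
        rw [ha'] at hh; have := hyXt x hx; omega
      · rw [hyX x hx, hyX x' hx'] at hh
        exact congrArg Subtype.val (eX.injective (Fin.ext hh))
  · intro x
    rcases hcases x with hx | hx | hx | hx
    · rw [hx, hyc]; omega
    · rw [hyS x hx]; have := h.lt x hx; omega
    · obtain ⟨a, ha, ha'⟩ := hyLT x hx
      rw [ha']; have := (hTm _ ha).2.1; omega
    · have := hyXt x hx; omega
  · intro x hxc hxv
    rcases hcases x with hx | hx | hx | hx
    · exact absurd hx hxc
    · rw [hsS x hx hxv]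
      have := h.sum3 x hx hxv
      have := h.sum_le hx hxv
      omega
    · rw [hsL x hx]
      obtain ⟨a, ha, ha'⟩ := hyLT x hx
      have h1 := hTm _ ha
      rw [ha']
      omega
    · rw [hsX x hx]
      have := hyXt x hx
      have : 3 ≤ σ := by have := h.lt u hu; omega
      omega
  · intro x x' hxc hxv hxc' hxv' hh
    rcases hcases x with hx | hx | hx | hx
    · exact absurd hx hxc
    · rcases hcases x' with hx' | hx' | hx' | hx'
      · exact absurd hx' hxc'
      · rw [hsS x hx hxv, hsS x' hx' hxv'] at hh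
        exact h.sinj x hx hxv x' hx' hxv' (by omega)
      · exact absurd hh (hSL x hx hxv x' hx')
      · exact absurd hh (hSX x hx hxv x' hx')
    · rcases hcases x' with hx' | hx' | hx' | hx'
      · exact absurd hx' hxc'
      · exact absurd hh.symm (hSL x' hx' hxv' x hx)
      · rw [hsL x hx, hsL x' hx', hyL x hx, hyL x' hx'] at hh
        have h9 : e ⟨x, hx⟩ = e ⟨x', hx'⟩ := Subtype.ext (by omega)
        exact congrArg Subtype.val (e.injective h9)
      · exact absurd hh (hLX x hx x' hx')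
    · rcases hcases x' with hx' | hx' | hx' | hx'
      · exact absurd hx' hxc'
      · exact absurd hh.symm (hSX x' hx' hxv' x hx)
      · exact absurd hh.symm (hLX x' hx' x hx)
      · rw [hsX x hx, hsX x' hx', hyX x hx, hyX x' hx'] at hh
        have h9 : eX ⟨x, hx⟩ = eX ⟨x', hx'⟩ := Fin.ext (by omega)
        exact congrArg Subtype.val (eX.injective h9)

end Pool.Agent.Helper1.SEM
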